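import Pool.Agent.H793.Nil.CellDef

set_option autoImplicit false

open scoped ContDiff Topology ENNReal
open MeasureTheory Matrix

namespace Pool.Agent.H793.Nil


/-- the slab `a ≤ x 0 < a + 1` -/
def slab (a : ℝ) : Set (Fin 3 → ℝ) :=
  {x | (a ≤ x 0 ∧ x 0 < a + 1) ∧ (0 ≤ x 1 ∧ x 1 < 1) ∧ (0 ≤ x 2 ∧ x 2 < 1)}

/-- the base of the slab -/
def base (a : ℝ) : Set (Fin 2 → ℝ) :=
  {u | (a ≤ u 0 ∧ u 0 < a + 1) ∧ (0 ≤ u 1 ∧ u 1 < 1)}

theorem meas_slab (a : ℝ) : MeasurableSet (slab a) := by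
  have h : slab a = ((fun x : Fin 3 → ℝ => x 0) ⁻¹' Set.Ico a (a + 1)) ∩
      (((fun x : Fin 3 → ℝ => x 1) ⁻¹' Set.Ico 0 1) ∩
        ((fun x : Fin 3 → ℝ => x 2) ⁻¹' Set.Ico 0 1)) := rfl
  rw [h]
  exact ((measurable_pi_apply 0) measurableSet_Ico).inter
    (((measurable_pi_apply 1) measurableSet_Ico).inter
      ((measurable_pi_apply 2) measurableSet_Ico))

theorem meas_dfund (e : ℕ) : MeasurableSet (dfund e) := by
  have h : dfund e = ((fun x : Fin 3 → ℝ => x 0) ⁻¹' Set.Ico 0 (e : ℝ)) ∩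
      (((fun x : Fin 3 → ℝ => x 1) ⁻¹' Set.Ico 0 1) ∩
        ((fun x : Fin 3 → ℝ => x 2) ⁻¹' Set.Ico 0 1)) := rfl
  rw [h]
  exact ((measurable_pi_apply 0) measurableSet_Ico).inter
    (((measurable_pi_apply 1) measurableSet_Ico).inter
      ((measurable_pi_apply 2) measurableSet_Ico))

theorem meas_cell (N : ℕ) (i : Fin 3 → Fin N) : MeasurableSet (cell N i) := by
  have h : cell N i = ⋂ m : Fin 3, ((fun x : Fin 3 → ℝ => x m) ⁻¹'
      Set.Ico (((i m : ℕ) : ℝ) / N) ((((i m : ℕ) : ℝ) + 1) / N)) := by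
    ext x
    simp only [cell, Set.mem_ofPred_eq, Set.mem_iInter, Set.mem_preimage, Set.mem_Ico]
  rw [h]
  exact MeasurableSet.iInter fun m => (measurable_pi_apply m) measurableSet_Ico

/-- continuous functions are integrable on bounded sets -/
theorem int_of {n : ℕ} {φ : (Fin n → ℝ) → ℝ} (hφ : Continuous φ) (s : Set (Fin n → ℝ)) (R : ℝ)
    (h : ∀ x ∈ s, ∀ i, |x i| ≤ R) : IntegrableOn φ s := by
  have h1 : IntegrableOn φ (Set.Icc (fun _ => -R) (fun _ => R)) :=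
    hφ.continuousOn.integrableOn_compact isCompact_Icc
  refine h1.mono_set fun x hx => ?_
  exact ⟨fun i => (abs_le.1 (h x hx i)).1, fun i => (abs_le.1 (h x hx i)).2⟩

theorem int_slab {φ : (Fin 3 → ℝ) → ℝ} (hφ : Continuous φ) (a : ℝ) (ha : 0 ≤ a) :
    IntegrableOn φ (slab a) := by
  refine int_of hφ _ (a + 1) fun x hx i => ?_
  obtain ⟨⟨h1, h2⟩, ⟨h3, h4⟩, h5, h6⟩ := hx
  fin_cases i
  · show |x 0| ≤ a + 1
    exact abs_le.2 ⟨by linarith, h2.le⟩
  · show |x 1| ≤ a + 1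
    exact abs_le.2 ⟨by linarith, by linarith⟩
  · show |x 2| ≤ a + 1
    exact abs_le.2 ⟨by linarith, by linarith⟩

theorem int_dfund {φ : (Fin 3 → ℝ) → ℝ} (hφ : Continuous φ) (e : ℕ) :
    IntegrableOn φ (dfund e) := by
  have he : (0 : ℝ) ≤ e := Nat.cast_nonneg e
  refine int_of hφ _ ((e : ℝ) + 1) fun x hx i => ?_
  obtain ⟨⟨h1, h2⟩, ⟨h3, h4⟩, h5, h6⟩ := hx
  fin_cases i
  · show |x 0| ≤ (e : ℝ) + 1
    exact abs_le.2 ⟨by linarith, by linarith⟩
  · show |x 1| ≤ (e : ℝ) + 1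
    exact abs_le.2 ⟨by linarith, by linarith⟩
  · show |x 2| ≤ (e : ℝ) + 1
    exact abs_le.2 ⟨by linarith, by linarith⟩

/-- the integral over the fundamental domain as a sum over slabs -/
theorem sum_slabs {φ : (Fin 3 → ℝ) → ℝ} (hφ : Continuous φ) (e : ℕ) :
    ∫ x in dfund e, φ x = ∑ j ∈ Finset.range e, ∫ x in slab j, φ x := by
  induction e with
  | zero =>
    have h : dfund 0 = ∅ := by
      ext x
      simp only [dfund, Set.mem_ofPred_eq, Set.mem_empty_iff_false, iff_false]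
      rintro ⟨⟨h1, h2⟩, -⟩
      rw [Nat.cast_zero] at h2
      linarith
    rw [h, Finset.sum_range_zero, setIntegral_empty]
  | succ e ih =>
    have he : (0 : ℝ) ≤ e := Nat.cast_nonneg e
    have h : dfund (e + 1) = dfund e ∪ slab e := by
      ext x
      simp only [dfund, slab, Set.mem_union, Set.mem_ofPred_eq]
      push_cast
      constructor
      · rintro ⟨⟨h1, h2⟩, h3⟩
        rcases lt_or_ge (x 0) e with h4 | h4
        · exact Or.inl ⟨⟨h1, h4⟩, h3⟩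
        · exact Or.inr ⟨⟨h4, h2⟩, h3⟩
      · rintro (⟨⟨h1, h2⟩, h3⟩ | ⟨⟨h1, h2⟩, h3⟩)
        · exact ⟨⟨h1, by linarith⟩, h3⟩
        · exact ⟨⟨by linarith, h2⟩, h3⟩
    have hd : Disjoint (dfund e) (slab e) := by
      rw [Set.disjoint_left]
      rintro x ⟨⟨-, h2⟩, -⟩ ⟨⟨h1, -⟩, -⟩
      linarith
    rw [h, setIntegral_union hd (meas_slab _) (int_dfund hφ e) (int_slab hφ e he), ih,
      Finset.sum_range_succ]

/-- Fubini for a slab -/
theorem fub {ψ : (Fin 3 → ℝ) → ℝ} (hψ : Continuous ψ) (a : ℝ) (ha : 0 ≤ a) :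
    ∫ x in slab a, ψ x = ∫ u in base a, ∫ t in Set.Ico (0 : ℝ) 1, ψ ![u 0, u 1, t] := by
  set e := MeasurableEquiv.piFinSuccAbove (fun _ : Fin 3 => ℝ) 2 with he
  have em : MeasurePreserving e volume volume :=
    volume_preserving_piFinSuccAbove (fun _ : Fin 3 => ℝ) 2
  have hx : ∀ x : Fin 3 → ℝ, e x = (x 2, ![x 0, x 1]) := by
    intro x
    refine Prod.ext rfl ?_
    ext i
    fin_cases i <;> rfl
  have hs : ∀ (t : ℝ) (u : Fin 2 → ℝ), e.symm (t, u) = ![u 0, u 1, t] := by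
    intro t u
    rw [MeasurableEquiv.symm_apply_eq, hx]
    refine Prod.ext rfl ?_
    ext i
    fin_cases i <;> rfl
  have hset : slab a = e ⁻¹' (Set.Ico (0 : ℝ) 1 ×ˢ base a) := by
    ext x
    rw [Set.mem_preimage, hx]
    simp only [slab, base, Set.mem_ofPred_eq, Set.mem_prod, Set.mem_Ico]
    constructor
    · rintro ⟨h1, h2, h3⟩
      exact ⟨h3, h1, h2⟩
    · rintro ⟨h3, h1, h2⟩
      exact ⟨h1, h2, h3⟩
  have hcont : Continuous fun z : (Fin 2 → ℝ) × ℝ => ψ ![z.1 0, z.1 1, z.2] := by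
    refine hψ.comp ?_
    refine continuous_pi fun i => ?_
    fin_cases i
    · show Continuous fun z : (Fin 2 → ℝ) × ℝ => z.1 0
      exact (continuous_apply 0).comp continuous_fst
    · show Continuous fun z : (Fin 2 → ℝ) × ℝ => z.1 1
      exact (continuous_apply 1).comp continuous_fst
    · exact continuous_snd
  have hint : IntegrableOn (fun z : (Fin 2 → ℝ) × ℝ => ψ ![z.1 0, z.1 1, z.2])
      (base a ×ˢ Set.Ico (0 : ℝ) 1) ((volume : Measure (Fin 2 → ℝ)).prod volume) := by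
    have h1 : IntegrableOn (fun z : (Fin 2 → ℝ) × ℝ => ψ ![z.1 0, z.1 1, z.2])
        ((Set.Icc (fun _ => -(a + 1)) (fun _ => a + 1)) ×ˢ Set.Icc (0 : ℝ) 1)
        ((volume : Measure (Fin 2 → ℝ)).prod volume) :=
      hcont.continuousOn.integrableOn_compact (isCompact_Icc.prod isCompact_Icc)
    refine h1.mono_set (Set.prod_mono (fun u hu => ?_) Set.Ico_subset_Icc_self)
    obtain ⟨⟨h1, h2⟩, h3, h4⟩ := hu
    refine ⟨fun i => ?_, fun i => ?_⟩
    · fin_cases i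
      · show -(a + 1) ≤ u 0
        linarith
      · show -(a + 1) ≤ u 1
        linarith
    · fin_cases i
      · show u 0 ≤ a + 1
        linarith
      · show u 1 ≤ a + 1
        linarith
  have h1 : ∫ x in slab a, ψ x = ∫ x in e ⁻¹' (Set.Ico (0 : ℝ) 1 ×ˢ base a),
      (fun z => ψ (e.symm z)) (e x) := by
    rw [hset]
    simp only [MeasurableEquiv.symm_apply_apply]
  have h3 := em.setIntegral_preimage_emb e.measurableEmbedding (fun z => ψ (e.symm z))
    (Set.Ico (0 : ℝ) 1 ×ˢ base a)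
  rw [h1]
  refine h3.trans ?_
  rw [Measure.volume_eq_prod, ← setIntegral_prod_swap]
  have h2 : (fun z : (Fin 2 → ℝ) × ℝ => ψ (e.symm z.swap)) =
      fun z => ψ ![z.1 0, z.1 1, z.2] := by
    funext z
    obtain ⟨u, t⟩ := z
    show ψ (e.symm (t, u)) = _
    rw [hs]
  rw [h2, setIntegral_prod _ hint]

theorem periodic_shift (g : ℝ → ℝ) (hg : ∀ t, g (t + 1) = g t) (s : ℝ) :
    ∫ t in Set.Ico (0 : ℝ) 1, g (t + s) = ∫ t in Set.Ico (0 : ℝ) 1, g t := by
  have h1 : ∀ f : ℝ → ℝ, ∫ t in Set.Ico (0 : ℝ) 1, f t = ∫ t in (0 : ℝ)..1, f t := by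
    intro f
    rw [integral_Ico_eq_integral_Ioo, ← integral_Ioc_eq_integral_Ioo,
      intervalIntegral.integral_of_le zero_le_one]
  rw [h1, h1, intervalIntegral.integral_comp_add_right]
  have h2 := Function.Periodic.intervalIntegral_add_eq (f := g) (T := 1) hg s 0
  rw [zero_add] at h2
  rw [zero_add, add_comm 1 s]
  exact h2

theorem shift_slab {φ : (Fin 3 → ℝ) → ℝ} (hφ : Continuous φ)
    (hper : ∀ x, φ (lt 0 0 1 x) = φ x) (j : ℕ) :
    ∫ x in slab j, φ x = ∫ x in dfund 1, φ (lt j 0 0 x) := by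
  have hj : (0 : ℝ) ≤ j := Nat.cast_nonneg j
  have hd : dfund 1 = slab 0 := by
    ext x
    simp only [dfund, slab, Set.mem_ofPred_eq, Nat.cast_one, zero_add]
  have hc : Continuous fun x => φ (lt j 0 0 x) := hφ.comp (contDiff_lt j 0 0).continuous
  rw [hd, fub hφ j hj, fub hc 0 le_rfl]
  have hp : ∀ u : Fin 2 → ℝ, ∀ t : ℝ, φ ![u 0, u 1, t + 1] = φ ![u 0, u 1, t] := by
    intro u t
    rw [← hper ![u 0, u 1, t]]
    congr 1
    ext i
    fin_cases i <;> simp [lt]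
  have h1 : ∀ u : Fin 2 → ℝ, ∫ t in Set.Ico (0 : ℝ) 1, φ (lt j 0 0 ![u 0, u 1, t]) =
      ∫ t in Set.Ico (0 : ℝ) 1, φ ![(u + ![(j : ℝ), 0]) 0, (u + ![(j : ℝ), 0]) 1, t] := by
    intro u
    rw [← periodic_shift (fun t => φ ![(u + ![(j : ℝ), 0]) 0, (u + ![(j : ℝ), 0]) 1, t])
      (fun t => hp _ t) (j * u 1)]
    congr 1
    funext t
    congr 1
    ext i
    fin_cases i <;> simp [lt]
  simp only [h1]
  have h2 := (measurePreserving_add_right (volume : Measure (Fin 2 → ℝ))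
    ![(j : ℝ), 0]).setIntegral_preimage_emb (measurableEmbedding_addRight _)
    (fun u : Fin 2 → ℝ => ∫ t in Set.Ico (0 : ℝ) 1, φ ![u 0, u 1, t]) (base j)
  have h3 : (fun x : Fin 2 → ℝ => x + ![(j : ℝ), 0]) ⁻¹' base j = base 0 := by
    ext u
    simp only [base, Set.mem_preimage, Set.mem_ofPred_eq, Pi.add_apply, Matrix.cons_val_zero,
      Matrix.cons_val_one, add_zero, zero_add]
    constructor
    · rintro ⟨⟨h1, h2⟩, h3⟩
      exact ⟨⟨by linarith, by linarith⟩, h3⟩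
    · rintro ⟨⟨h1, h2⟩, h3⟩
      exact ⟨⟨by linarith, by linarith⟩, h3⟩
  rw [h3] at h2
  exact h2.symm

/-- C1: the integral over the fundamental domain, slab by slab -/
theorem integral_slabs {e : ℕ} (he : 0 < e) {φ : (Fin 3 → ℝ) → ℝ} (hφ : Continuous φ)
    (hper : ∀ x, φ (lt 0 0 1 x) = φ x) :
    ∫ x in dfund e, φ x = ∑ j ∈ Finset.range e, ∫ x in dfund 1, φ (lt j 0 0 x) := by
  have _ := he
  rw [sum_slabs hφ e]
  exact Finset.sum_congr rfl fun j _ => shift_slab hφ hper j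

/-- C2: the integral over the unit cube is the sum of the integrals over the small cubes -/
theorem integral_cells {N : ℕ} (hN : 0 < N) {φ : (Fin 3 → ℝ) → ℝ} (hφ : Continuous φ) :
    ∫ x in dfund 1, φ x = ∑ i : Fin 3 → Fin N, ∫ x in cell N i, φ x := by
  have hN' : (0 : ℝ) < N := by exact_mod_cast hN
  have hset : dfund 1 = ⋃ i ∈ (Finset.univ : Finset (Fin 3 → Fin N)), cell N i := by
    ext x
    simp only [Finset.mem_univ, Set.iUnion_true, Set.mem_iUnion]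
    constructor
    · intro hx
      have h0 : ∀ m : Fin 3, 0 ≤ x m ∧ x m < 1 := by
        obtain ⟨⟨h1, h2⟩, ⟨h3, h4⟩, h5, h6⟩ := hx
        rw [Nat.cast_one] at h2
        intro m
        fin_cases m
        · exact ⟨h1, h2⟩
        · exact ⟨h3, h4⟩
        · exact ⟨h5, h6⟩
      have h1 : ∀ m : Fin 3, ⌊x m * N⌋₊ < N := by
        intro m
        rw [Nat.floor_lt (mul_nonneg (h0 m).1 hN'.le)]
        nlinarith [(h0 m).2]
      refine ⟨fun m => ⟨⌊x m * N⌋₊, h1 m⟩, fun m => ⟨?_, ?_⟩⟩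
      · rw [div_le_iff₀ hN']
        exact Nat.floor_le (mul_nonneg (h0 m).1 hN'.le)
      · rw [lt_div_iff₀ hN']
        exact Nat.lt_floor_add_one _
    · rintro ⟨i, hi⟩
      have h0 : ∀ m : Fin 3, 0 ≤ x m ∧ x m < 1 := by
        intro m
        obtain ⟨h1, h2⟩ := hi m
        refine ⟨le_trans (by positivity) h1, lt_of_lt_of_le h2 ?_⟩
        rw [div_le_one hN']
        have h3 : (i m : ℕ) + 1 ≤ N := (i m).2
        exact_mod_cast h3
      refine ⟨⟨(h0 0).1, ?_⟩, h0 1, h0 2⟩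
      rw [Nat.cast_one]
      exact (h0 0).2
  rw [hset]
  refine integral_biUnion_finset _ (fun i _ => meas_cell N i) ?_ (fun i _ => ?_)
  · intro i _ i' _ hne
    refine Set.disjoint_left.2 fun x hx hx' => hne ?_
    funext m
    obtain ⟨h1, h2⟩ := hx m
    obtain ⟨h3, h4⟩ := hx' m
    have h5 : ((i m : ℕ) : ℝ) < ((i' m : ℕ) : ℝ) + 1 := by
      have := lt_of_le_of_lt h1 h4
      rwa [div_lt_div_iff_of_pos_right hN'] at this
    have h6 : ((i' m : ℕ) : ℝ) < ((i m : ℕ) : ℝ) + 1 := by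
      have := lt_of_le_of_lt h3 h2
      rwa [div_lt_div_iff_of_pos_right hN'] at this
    have h7 : (i m : ℕ) < (i' m : ℕ) + 1 := by exact_mod_cast h5
    have h8 : (i' m : ℕ) < (i m : ℕ) + 1 := by exact_mod_cast h6
    exact Fin.ext (by omega)
  · refine (int_dfund hφ 1).mono_set ?_
    rw [hset]
    exact Set.subset_biUnion_of_mem (Finset.mem_univ i)

end Pool.Agent.H793.Nil
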