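import Pool.Agent.H793.Nil.CellDef
import Pool.Graph.R_seed8.H85R3.RMPoinc

/-! C3: the Poincare inequality on a small cube, for the left invariant fields of the Heisenberg
group. -/

set_option autoImplicit false

open scoped ContDiff Topology ENNReal
open MeasureTheory Matrix

namespace Pool.Agent.H793.Nil

open Pool.Agent.H85R3.RM

/-- the coordinates as a point of `(ℝ × ℝ) × ℝ` -/
def TT (x : Fin 3 → ℝ) : (ℝ × ℝ) × ℝ := ((x 0, x 1), x 2)

/-- the inverse map -/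
def SS (p : (ℝ × ℝ) × ℝ) : Fin 3 → ℝ := ![p.1.1, p.1.2, p.2]

theorem SS_TT (x : Fin 3 → ℝ) : SS (TT x) = x := by
  funext i
  fin_cases i <;> rfl

theorem TT_SS (p : (ℝ × ℝ) × ℝ) : TT (SS p) = p := rfl

theorem continuous_SS : Continuous SS := by
  refine continuous_pi fun i => ?_
  fin_cases i
  · exact continuous_fst.comp continuous_fst
  · exact continuous_snd.comp continuous_fst
  · exact continuous_snd

theorem continuous_TT : Continuous TT :=
  ((continuous_apply 0).prodMk (continuous_apply 1)).prodMk (continuous_apply 2)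

/-- the measurable equivalence -/
def eqvC : (Fin 3 → ℝ) ≃ᵐ (ℝ × ℝ) × ℝ where
  toFun := TT
  invFun := SS
  left_inv := SS_TT
  right_inv := TT_SS
  measurable_toFun := continuous_TT.measurable
  measurable_invFun := continuous_SS.measurable

theorem mp_TT : MeasurePreserving TT volume volume := by
  have h1 := volume_preserving_piFinSuccAbove (fun _ : Fin 3 => ℝ) (Fin.last 2)
  have h2 := volume_preserving_finTwoArrow ℝ
  have h3 : MeasurePreserving (Prod.map (id : ℝ → ℝ) (MeasurableEquiv.finTwoArrow (α := ℝ)))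
      (volume : Measure (ℝ × (Fin 2 → ℝ))) (volume : Measure (ℝ × (ℝ × ℝ))) :=
    (MeasurePreserving.id volume).prod h2
  have h4 : MeasurePreserving (Prod.swap : ℝ × (ℝ × ℝ) → (ℝ × ℝ) × ℝ)
      (volume : Measure (ℝ × (ℝ × ℝ))) (volume : Measure ((ℝ × ℝ) × ℝ)) :=
    Measure.measurePreserving_swap
  have h5 := h4.comp (h3.comp h1)
  have h6 : (Prod.swap : ℝ × (ℝ × ℝ) → (ℝ × ℝ) × ℝ) ∘ (Prod.map (id : ℝ → ℝ)
      (MeasurableEquiv.finTwoArrow (α := ℝ)) ∘
      (MeasurableEquiv.piFinSuccAbove (fun _ : Fin 3 => ℝ) (Fin.last 2))) = TT := by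
    funext x
    rfl
  rw [h6] at h5
  exact h5

/-- set integrals in the two models -/
theorem setIntegral_TT (B : Set ((ℝ × ℝ) × ℝ)) (φ : (Fin 3 → ℝ) → ℝ) :
    ∫ x in TT ⁻¹' B, φ x = ∫ p in B, φ (SS p) := by
  have h := mp_TT.setIntegral_preimage_emb eqvC.measurableEmbedding (fun p => φ (SS p)) B
  rw [← h]
  refine integral_congr_ae (Filter.Eventually.of_forall fun x => ?_)
  show φ x = φ (SS (TT x))
  rw [SS_TT]

section partialDerivs

variable {f : (Fin 3 → ℝ) → ℝ}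

theorem continuous_pd (hf : ContDiff ℝ ∞ f) (m : Fin 3) : Continuous (pd m f) := by
  have h : Continuous (fderiv ℝ f) := hf.continuous_fderiv (by simp)
  exact h.clm_apply continuous_const

theorem hasDerivAt_of_curve (hf : ContDiff ℝ ∞ f) (m : Fin 3) {c : ℝ → (Fin 3 → ℝ)} {s : ℝ}
    (hc : HasDerivAt c (Pi.single m 1) s) : HasDerivAt (fun t => f (c t)) (pd m f (c s)) s := by
  have h1 : HasFDerivAt f (fderiv ℝ f (c s)) (c s) :=
    ((hf.differentiable (by simp)) (c s)).hasFDerivAt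
  exact h1.comp_hasDerivAt s hc

theorem curve0 (x y z : ℝ) :
    HasDerivAt (fun s => SS ((s, y), z)) (Pi.single (0 : Fin 3) (1 : ℝ)) x := by
  rw [hasDerivAt_pi]
  intro i
  fin_cases i
  · exact hasDerivAt_id x
  · exact hasDerivAt_const x y
  · exact hasDerivAt_const x z

theorem curve1 (x y z : ℝ) :
    HasDerivAt (fun s => SS ((x, s), z)) (Pi.single (1 : Fin 3) (1 : ℝ)) y := by
  rw [hasDerivAt_pi]
  intro i
  fin_cases i
  · exact hasDerivAt_const y x
  · exact hasDerivAt_id y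
  · exact hasDerivAt_const y z

theorem curve2 (x y z : ℝ) :
    HasDerivAt (fun s => SS ((x, y), s)) (Pi.single (2 : Fin 3) (1 : ℝ)) z := by
  rw [hasDerivAt_pi]
  intro i
  fin_cases i
  · exact hasDerivAt_const z x
  · exact hasDerivAt_const z y
  · exact hasDerivAt_id z

end partialDerivs

/-- the box -/
def box (a b : Fin 3 → ℝ) : Set ((ℝ × ℝ) × ℝ) :=
  (Set.Ico (a 0) (b 0) ×ˢ Set.Ico (a 1) (b 1)) ×ˢ Set.Ico (a 2) (b 2)

/-- the closed box -/
def cbox (a b : Fin 3 → ℝ) : Set ((ℝ × ℝ) × ℝ) :=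
  (Set.Icc (a 0) (b 0) ×ˢ Set.Icc (a 1) (b 1)) ×ˢ Set.Icc (a 2) (b 2)

theorem box_sub (a b : Fin 3 → ℝ) : box a b ⊆ cbox a b :=
  Set.prod_mono (Set.prod_mono Set.Ico_subset_Icc_self Set.Ico_subset_Icc_self)
    Set.Ico_subset_Icc_self

theorem cbox_compact (a b : Fin 3 → ℝ) : IsCompact (cbox a b) :=
  (isCompact_Icc.prod isCompact_Icc).prod isCompact_Icc

theorem box_meas (a b : Fin 3 → ℝ) : MeasurableSet (box a b) :=
  (measurableSet_Ico.prod measurableSet_Ico).prod measurableSet_Ico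

theorem integrableOn_box (a b : Fin 3 → ℝ) {g : (ℝ × ℝ) × ℝ → ℝ} (hg : Continuous g) :
    IntegrableOn g (box a b) :=
  (hg.continuousOn.integrableOn_compact (cbox_compact a b)).mono_set (box_sub a b)

theorem restrict_box (a b : Fin 3 → ℝ) :
    ((volume.restrict (Set.Ico (a 0) (b 0))).prod (volume.restrict (Set.Ico (a 1) (b 1)))).prod
      (volume.restrict (Set.Ico (a 2) (b 2))) =
    (volume : Measure ((ℝ × ℝ) × ℝ)).restrict (box a b) := by
  rw [Measure.prod_restrict, Measure.prod_restrict]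
  rfl

/-- the Poincare inequality for real integrals on a box -/
theorem real_poincare {a b : Fin 3 → ℝ} {δ : ℝ} (hδ : 0 < δ) (hab : ∀ m, b m - a m = δ)
    {f : (Fin 3 → ℝ) → ℝ} (hf : ContDiff ℝ ∞ f) (h0 : ∫ p in box a b, f (SS p) = 0) :
    ∫ p in box a b, f (SS p) ^ 2 ≤
      4 * δ ^ 2 * ∫ p in box a b, (pd 0 f (SS p) ^ 2 + pd 1 f (SS p) ^ 2 + pd 2 f (SS p) ^ 2) := by
  have hlt : ∀ m, a m < b m := fun m => by have := hab m; linarith
  have cf : Continuous fun p => f (SS p) := hf.continuous.comp continuous_SS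
  have c0 : Continuous fun p => pd 0 f (SS p) := (continuous_pd hf 0).comp continuous_SS
  have c1 : Continuous fun p => pd 1 f (SS p) := (continuous_pd hf 1).comp continuous_SS
  have c2 : Continuous fun p => pd 2 f (SS p) := (continuous_pd hf 2).comp continuous_SS
  have key := box_poincare (u := fun p => f (SS p)) (d₁ := fun p => pd 0 f (SS p))
    (d₂ := fun p => pd 1 f (SS p)) (d₃ := fun p => pd 2 f (SS p)) (a₁ := a 0) (b₁ := b 0)
    (a₂ := a 1) (b₂ := b 1) (a₃ := a 2) (b₃ := b 2) (δ := δ)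
    cf.measurable c0.measurable c1.measurable c2.measurable (hlt 0) (hlt 1) (hlt 2)
    (hab 0).le (hab 1).le (hab 2).le
    (fun x _ y _ z _ => hasDerivAt_of_curve hf 0 (curve0 x y z))
    (fun x _ y _ z _ => hasDerivAt_of_curve hf 1 (curve1 x y z))
    (fun x _ y _ z _ => hasDerivAt_of_curve hf 2 (curve2 x y z))
    cf.continuousOn c0.continuousOn c1.continuousOn c2.continuousOn
    (by rw [restrict_box]; exact h0)
  rw [restrict_box] at key
  have i1 : IntegrableOn (fun p => f (SS p) ^ 2) (box a b) := integrableOn_box a b (cf.pow 2)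
  have i2 : IntegrableOn (fun p => pd 0 f (SS p) ^ 2 + pd 1 f (SS p) ^ 2 + pd 2 f (SS p) ^ 2)
      (box a b) := integrableOn_box a b (((c0.pow 2).add (c1.pow 2)).add (c2.pow 2))
  have e1 := ofReal_integral_eq_lintegral_ofReal i1
    (Filter.Eventually.of_forall fun p => sq_nonneg (f (SS p)))
  have e2 := ofReal_integral_eq_lintegral_ofReal i2
    (Filter.Eventually.of_forall fun p => add_nonneg (add_nonneg (sq_nonneg (pd 0 f (SS p)))
      (sq_nonneg (pd 1 f (SS p)))) (sq_nonneg (pd 2 f (SS p))))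
  have e3 : ∀ p, ENNReal.ofReal (pd 0 f (SS p) ^ 2 + pd 1 f (SS p) ^ 2 + pd 2 f (SS p) ^ 2) =
      ENNReal.ofReal (pd 0 f (SS p) ^ 2) + ENNReal.ofReal (pd 1 f (SS p) ^ 2) +
        ENNReal.ofReal (pd 2 f (SS p) ^ 2) := by
    intro p
    rw [ENNReal.ofReal_add (add_nonneg (sq_nonneg _) (sq_nonneg _)) (sq_nonneg _),
      ENNReal.ofReal_add (sq_nonneg _) (sq_nonneg _)]
  simp only [e3] at e2
  rw [← e1, ← e2] at key
  have e4 : 4 * ENNReal.ofReal δ ^ 2 = ENNReal.ofReal (4 * δ ^ 2) := by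
    rw [ENNReal.ofReal_mul (by norm_num), ENNReal.ofReal_pow hδ.le]
    norm_num
  have hnn : 0 ≤ ∫ p in box a b, (pd 0 f (SS p) ^ 2 + pd 1 f (SS p) ^ 2 + pd 2 f (SS p) ^ 2) :=
    integral_nonneg fun p => add_nonneg (add_nonneg (sq_nonneg (pd 0 f (SS p)))
      (sq_nonneg (pd 1 f (SS p)))) (sq_nonneg (pd 2 f (SS p)))
  rw [e4, ← ENNReal.ofReal_mul (by positivity)] at key
  exact (ENNReal.ofReal_le_ofReal_iff (by positivity)).mp key

/-- the cells are boxes -/
theorem cell_eq {N : ℕ} (i : Fin 3 → Fin N) :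
    cell N i = TT ⁻¹' box (fun m => ((i m : ℕ) : ℝ) / N) (fun m => (((i m : ℕ) : ℝ) + 1) / N) := by
  ext x
  constructor
  · intro h
    exact ⟨⟨h 0, h 1⟩, h 2⟩
  · rintro ⟨⟨h0, h1⟩, h2⟩ m
    fin_cases m
    · exact h0
    · exact h1
    · exact h2

/-- the pointwise inequality -/
theorem pointwise {p q r t : ℝ} (ht : t ^ 2 ≤ 1) :
    p ^ 2 + q ^ 2 + r ^ 2 ≤ 3 * (p ^ 2 + (q + t * r) ^ 2 + r ^ 2) := by
  nlinarith [sq_nonneg (q + 2 * (t * r)), sq_nonneg (q + t * r), sq_nonneg p,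
    mul_le_mul_of_nonneg_right ht (sq_nonneg r), sq_nonneg q, sq_nonneg r,
    sq_nonneg (2 * q + 3 * (t * r))]

/-- C3: the Poincare inequality on a small cube, for the left invariant fields -/
theorem cell_poincare {N : ℕ} (hN : 0 < N) (i : Fin 3 → Fin N) {f : (Fin 3 → ℝ) → ℝ}
    (hf : ContDiff ℝ ∞ f) (h0 : ∫ x in cell N i, f x = 0) :
    (N : ℝ) ^ 2 * ∫ x in cell N i, f x ^ 2 ≤
      12 * ∫ x in cell N i, (dX f x ^ 2 + dY f x ^ 2 + dZ f x ^ 2) := by
  have hN' : (0 : ℝ) < N := by exact_mod_cast hN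
  set a : Fin 3 → ℝ := fun m => ((i m : ℕ) : ℝ) / N with ha
  set b : Fin 3 → ℝ := fun m => (((i m : ℕ) : ℝ) + 1) / N with hb
  have hcell : cell N i = TT ⁻¹' box a b := cell_eq i
  have hab : ∀ m, b m - a m = 1 / N := by
    intro m
    rw [hb, ha]
    ring
  rw [hcell, setIntegral_TT] at h0
  rw [hcell, setIntegral_TT, setIntegral_TT]
  have key := real_poincare (a := a) (b := b) (δ := 1 / N) (by positivity) hab hf h0
  have cf0 : Continuous fun p => pd 0 f (SS p) := (continuous_pd hf 0).comp continuous_SS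
  have cf1 : Continuous fun p => pd 1 f (SS p) := (continuous_pd hf 1).comp continuous_SS
  have cf2 : Continuous fun p => pd 2 f (SS p) := (continuous_pd hf 2).comp continuous_SS
  have i2 : IntegrableOn (fun p => pd 0 f (SS p) ^ 2 + pd 1 f (SS p) ^ 2 + pd 2 f (SS p) ^ 2)
      (box a b) := integrableOn_box a b (((cf0.pow 2).add (cf1.pow 2)).add (cf2.pow 2))
  have c3 : Continuous fun p : (ℝ × ℝ) × ℝ => dX f (SS p) ^ 2 + dY f (SS p) ^ 2 +
      dZ f (SS p) ^ 2 := by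
    have h0 : Continuous fun p : (ℝ × ℝ) × ℝ => (SS p) 0 :=
      (continuous_apply 0).comp continuous_SS
    exact ((cf0.pow 2).add ((cf1.add (h0.mul cf2)).pow 2)).add (cf2.pow 2)
  have i3 : IntegrableOn (fun p => 3 * (dX f (SS p) ^ 2 + dY f (SS p) ^ 2 + dZ f (SS p) ^ 2))
      (box a b) := integrableOn_box a b (continuous_const.mul c3)
  have hmono : ∫ p in box a b, (pd 0 f (SS p) ^ 2 + pd 1 f (SS p) ^ 2 + pd 2 f (SS p) ^ 2) ≤
      ∫ p in box a b, 3 * (dX f (SS p) ^ 2 + dY f (SS p) ^ 2 + dZ f (SS p) ^ 2) := by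
    refine setIntegral_mono_on i2 i3 (box_meas a b) fun p hp => ?_
    have h1 : a 0 ≤ p.1.1 := hp.1.1.1
    have h2 : p.1.1 < b 0 := hp.1.1.2
    have h3 : 0 ≤ a 0 := by
      rw [ha]
      positivity
    have h4 : b 0 ≤ 1 := by
      show (((i 0 : ℕ) : ℝ) + 1) / N ≤ 1
      rw [div_le_one hN']
      have : (i 0 : ℕ) + 1 ≤ N := (i 0).2
      exact_mod_cast this
    have h5 : p.1.1 ^ 2 ≤ 1 := by
      nlinarith
    have h6 : (SS p) 0 = p.1.1 := rfl
    show pd 0 f (SS p) ^ 2 + pd 1 f (SS p) ^ 2 + pd 2 f (SS p) ^ 2 ≤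
      3 * (pd 0 f (SS p) ^ 2 + (pd 1 f (SS p) + (SS p) 0 * pd 2 f (SS p)) ^ 2 + pd 2 f (SS p) ^ 2)
    rw [h6]
    exact pointwise h5
  rw [integral_const_mul] at hmono
  have h7 : (N : ℝ) ^ 2 * (4 * (1 / (N : ℝ)) ^ 2) = 4 := by
    field_simp
  calc (N : ℝ) ^ 2 * ∫ p in box a b, f (SS p) ^ 2
      ≤ (N : ℝ) ^ 2 * (4 * (1 / (N : ℝ)) ^ 2 *
        ∫ p in box a b, (pd 0 f (SS p) ^ 2 + pd 1 f (SS p) ^ 2 + pd 2 f (SS p) ^ 2)) :=
        mul_le_mul_of_nonneg_left key (by positivity)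
    _ = 4 * ∫ p in box a b, (pd 0 f (SS p) ^ 2 + pd 1 f (SS p) ^ 2 + pd 2 f (SS p) ^ 2) := by
        rw [← mul_assoc, h7]
    _ ≤ 4 * (3 * ∫ p in box a b, (dX f (SS p) ^ 2 + dY f (SS p) ^ 2 + dZ f (SS p) ^ 2)) :=
        mul_le_mul_of_nonneg_left hmono (by norm_num)
    _ = 12 * ∫ p in box a b, (dX f (SS p) ^ 2 + dY f (SS p) ^ 2 + dZ f (SS p) ^ 2) := by ring

end Pool.Agent.H793.Nil
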