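import Pool.Agent.H793.Nil.Heis

set_option autoImplicit false

open scoped ContDiff Topology ENNReal
open MeasureTheory Matrix

namespace Pool.Agent.H793.Nil

open Pool.Agent.H85R3.RM

/-- The small cube with index `i = (i₀, i₁, i₂)` in the subdivision of the unit cube into `N ^ 3`
cubes. -/
def cell (N : ℕ) (i : Fin 3 → Fin N) : Set (Fin 3 → ℝ) :=
  {x | ∀ m : Fin 3, ((i m : ℕ) : ℝ) / N ≤ x m ∧ x m < (((i m : ℕ) : ℝ) + 1) / N}

end Pool.Agent.H793.Nil
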