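import Pool.Graph.R_seed8.H85R3.RMDefs

/-! Geodesics and the injectivity radius of a closed Riemannian manifold presented as `dom / deck`. -/

set_option autoImplicit false

open scoped ContDiff Topology
open MeasureTheory Matrix

namespace Pool.Agent.H793.Nil

open Pool.Agent.H85R3.RM

variable {n : ℕ}

/-- `γ : ℝ → dom` is (a lift to `dom` of) a geodesic of the manifold, parametrised proportionally to
arc length: `γ'' ^ k + Γ^k_{ij} γ'^i γ'^j = 0`. As a closed manifold is complete, every geodesic is
defined on the whole real line. -/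
structure IsGeodesic (M : ClosedManifold n) (γ : ℝ → (Fin n → ℝ)) : Prop where
  mem : ∀ t, γ t ∈ M.dom
  smooth : ContDiff ℝ ∞ γ
  eqn : ∀ t, ∀ k, deriv (deriv γ) t k +
    ∑ i, ∑ j, christoffel M.metric k i j (γ t) * deriv γ t i * deriv γ t j = 0

/-- The square of the Riemannian norm of a tangent vector `v` at `x`. -/
noncomputable def normSq (M : ClosedManifold n) (x v : Fin n → ℝ) : ℝ := v ⬝ᵥ (M.metric x *ᵥ v)

/-- For every point `p` of the manifold the exponential map `exp_p` is injective on the open ball of
radius `r` in the tangent space: two geodesics `γ₁, γ₂` that start at `p` with velocities of norm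
less than `r` and that are at the same point of the quotient at time `1` have the same initial
velocity. -/
def ExpInjective (M : ClosedManifold n) (r : ℝ) : Prop :=
  ∀ γ₁ γ₂ : ℝ → (Fin n → ℝ), IsGeodesic M γ₁ → IsGeodesic M γ₂ → γ₁ 0 = γ₂ 0 →
    normSq M (γ₁ 0) (deriv γ₁ 0) < r ^ 2 → normSq M (γ₂ 0) (deriv γ₂ 0) < r ^ 2 →
    ∀ g, M.act g (γ₁ 1) = γ₂ 1 → deriv γ₁ 0 = deriv γ₂ 0

/-- The injectivity radius: the supremum of the `r` such that every exponential map `exp_p` is
injective on the open ball of radius `r`. -/
noncomputable def injRadius (M : ClosedManifold n) : ℝ := sSup {r : ℝ | 0 ≤ r ∧ ExpInjective M r}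

end Pool.Agent.H793.Nil
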