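import Pool.Agent.H793.Nil.S2Ricci

set_option autoImplicit false

open scoped ContDiff Topology ENNReal
open MeasureTheory Matrix

namespace Pool.Agent.H793.Nil

open Pool.Agent.H85R3.RM

/-- The geodesic equations of the Heisenberg group, in the left invariant frame. -/
structure FrameODE (x y z u v : ℝ → ℝ) (w : ℝ) : Prop where
  hx : ∀ t, HasDerivAt x (u t) t
  hy : ∀ t, HasDerivAt y (v t) t
  hz : ∀ t, HasDerivAt z (w + x t * v t) t
  hu : ∀ t, HasDerivAt u (-(w * v t)) t
  hv : ∀ t, HasDerivAt v (w * u t) t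

end Pool.Agent.H793.Nil
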