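import Pool.Agent.H793.Nil.Heis

/-! The integrals of the left invariant derivatives of an invariant function over the
fundamental domain vanish. -/

set_option autoImplicit false

open scoped ContDiff Topology
open MeasureTheory Matrix Set

namespace Pool.Agent.H793.Nil

open Pool.Agent.H85R3.RM

/-- The equivalence `ℝ³ ≃ ℝ × ℝ × ℝ`. -/
noncomputable def eqv : (Fin 3 → ℝ) ≃ᵐ ℝ × (ℝ × ℝ) :=
  (MeasurableEquiv.piFinSuccAbove (fun _ : Fin 3 => ℝ) 0).trans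
    ((MeasurableEquiv.refl ℝ).prodCongr MeasurableEquiv.finTwoArrow)

theorem eqv_apply (x : Fin 3 → ℝ) : eqv x = (x 0, (x 1, x 2)) := by
  rfl

theorem mp_eqv : MeasurePreserving eqv volume volume := by
  have h1 := volume_preserving_piFinSuccAbove (fun _ : Fin 3 => ℝ) 0
  have h2 := volume_preserving_finTwoArrow ℝ
  have h3 : MeasurePreserving (Prod.map (id : ℝ → ℝ) (MeasurableEquiv.finTwoArrow (α := ℝ)))
      (volume.prod volume) (volume.prod volume) := (MeasurePreserving.id volume).prod h2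
  exact h3.comp h1

theorem preim (e : ℕ) :
    eqv ⁻¹' (Ico (0 : ℝ) e ×ˢ (Ico (0 : ℝ) 1 ×ˢ Ico (0 : ℝ) 1)) = dfund e := by
  ext x
  simp only [mem_preimage, eqv_apply, mem_prod, mem_Ico, dfund, mem_ofPred_eq]

theorem cont_vec : Continuous (fun p : ℝ × (ℝ × ℝ) => (![p.1, p.2.1, p.2.2] : Fin 3 → ℝ)) := by
  refine continuous_pi fun i => ?_
  fin_cases i <;> simp <;> fun_prop

theorem slice (e : ℕ) (g : (Fin 3 → ℝ) → ℝ) :
    ∫ x in dfund e, g x =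
      ∫ p in Ico (0 : ℝ) e ×ˢ (Ico (0 : ℝ) 1 ×ˢ Ico (0 : ℝ) 1), g ![p.1, p.2.1, p.2.2] := by
  have h := mp_eqv.setIntegral_preimage_emb eqv.measurableEmbedding
    (fun p : ℝ × (ℝ × ℝ) => g ![p.1, p.2.1, p.2.2])
    (Ico (0 : ℝ) e ×ˢ (Ico (0 : ℝ) 1 ×ˢ Ico (0 : ℝ) 1))
  rw [preim] at h
  rw [← h]
  refine integral_congr_ae (Filter.Eventually.of_forall fun x => ?_)
  show g x = g ![(eqv x).1, (eqv x).2.1, (eqv x).2.2]
  congr 1
  rw [eqv_apply]
  ext i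
  fin_cases i <;> rfl

theorem intg2 {g : ℝ × ℝ → ℝ} (hg : Continuous g) :
    Integrable g ((volume.restrict (Ico (0 : ℝ) 1)).prod (volume.restrict (Ico (0 : ℝ) 1))) := by
  rw [Measure.prod_restrict]
  have : IntegrableOn g (Icc (0 : ℝ) 1 ×ˢ Icc (0 : ℝ) 1) (volume.prod volume) :=
    hg.continuousOn.integrableOn_compact (isCompact_Icc.prod isCompact_Icc)
  exact this.mono_set (prod_mono Ico_subset_Icc_self Ico_subset_Icc_self)

theorem intg3 (e : ℝ) {g : ℝ × (ℝ × ℝ) → ℝ} (hg : Continuous g) :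
    Integrable g ((volume.restrict (Ico (0 : ℝ) e)).prod
      (volume.restrict (Ico (0 : ℝ) 1 ×ˢ Ico (0 : ℝ) 1))) := by
  rw [Measure.prod_restrict]
  have : IntegrableOn g (Icc (0 : ℝ) e ×ˢ (Icc (0 : ℝ) 1 ×ˢ Icc (0 : ℝ) 1))
      (volume.prod volume) :=
    hg.continuousOn.integrableOn_compact
      (isCompact_Icc.prod (isCompact_Icc.prod isCompact_Icc))
  exact this.mono_set (prod_mono Ico_subset_Icc_self
    (prod_mono Ico_subset_Icc_self Ico_subset_Icc_self))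

theorem fubA (e : ℝ) {g : ℝ × (ℝ × ℝ) → ℝ} (hg : Continuous g) :
    ∫ p in Ico (0 : ℝ) e ×ˢ (Ico (0 : ℝ) 1 ×ˢ Ico (0 : ℝ) 1), g p =
      ∫ a in Ico (0 : ℝ) e, ∫ q in Ico (0 : ℝ) 1 ×ˢ Ico (0 : ℝ) 1, g (a, q) := by
  have h := integral_prod g (intg3 e hg)
  rw [Measure.prod_restrict] at h
  exact h

theorem fubB (e : ℝ) {g : ℝ × (ℝ × ℝ) → ℝ} (hg : Continuous g) :
    ∫ p in Ico (0 : ℝ) e ×ˢ (Ico (0 : ℝ) 1 ×ˢ Ico (0 : ℝ) 1), g p =
      ∫ q in Ico (0 : ℝ) 1 ×ˢ Ico (0 : ℝ) 1, ∫ a in Ico (0 : ℝ) e, g (a, q) := by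
  have h := integral_prod_symm g (intg3 e hg)
  rw [Measure.prod_restrict] at h
  exact h

theorem fubC {g : ℝ × ℝ → ℝ} (hg : Continuous g) :
    ∫ q in Ico (0 : ℝ) 1 ×ˢ Ico (0 : ℝ) 1, g q =
      ∫ b in Ico (0 : ℝ) 1, ∫ c in Ico (0 : ℝ) 1, g (b, c) := by
  have h := integral_prod g (intg2 hg)
  rw [Measure.prod_restrict] at h
  exact h

theorem fubD {g : ℝ × ℝ → ℝ} (hg : Continuous g) :
    ∫ q in Ico (0 : ℝ) 1 ×ˢ Ico (0 : ℝ) 1, g q =
      ∫ c in Ico (0 : ℝ) 1, ∫ b in Ico (0 : ℝ) 1, g (b, c) := by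
  have h := integral_prod_symm g (intg2 hg)
  rw [Measure.prod_restrict] at h
  exact h

/-- The fundamental theorem of calculus on `Ico`. -/
theorem ftc {F F' : ℝ → ℝ} {b : ℝ} (hb : 0 ≤ b) (h : ∀ t, HasDerivAt F (F' t) t)
    (hc : Continuous F') : ∫ t in Ico (0 : ℝ) b, F' t = F b - F 0 := by
  rw [integral_Ico_eq_integral_Ioo, ← integral_Ioc_eq_integral_Ioo,
    ← intervalIntegral.integral_of_le hb]
  exact intervalIntegral.integral_eq_sub_of_hasDerivAt (fun t _ => h t)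
    (hc.intervalIntegrable _ _)

theorem cont_pd {f : (Fin 3 → ℝ) → ℝ} (hf : ContDiff ℝ ∞ f) (i : Fin 3) :
    Continuous (pd i f) := by
  have h : Continuous (fderiv ℝ f) := hf.continuous_fderiv (by simp)
  exact h.clm_apply continuous_const

theorem cont_pd3 {f : (Fin 3 → ℝ) → ℝ} (hf : ContDiff ℝ ∞ f) (i : Fin 3) :
    Continuous (fun p : ℝ × (ℝ × ℝ) => pd i f ![p.1, p.2.1, p.2.2]) :=
  (cont_pd hf i).comp cont_vec

theorem hasDeriv0 {f : (Fin 3 → ℝ) → ℝ} (hf : ContDiff ℝ ∞ f) (b c t : ℝ) :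
    HasDerivAt (fun s => f ![s, b, c]) (pd 0 f ![t, b, c]) t := by
  have h1 : HasFDerivAt f (fderiv ℝ f ![t, b, c]) ![t, b, c] :=
    (hf.differentiable (by simp) _).hasFDerivAt
  have h2 : HasDerivAt (fun s : ℝ => (![s, b, c] : Fin 3 → ℝ)) (Pi.single 0 1) t := by
    rw [hasDerivAt_pi]
    intro i
    fin_cases i
    · simpa using hasDerivAt_id' t
    · simpa using hasDerivAt_const t b
    · simpa using hasDerivAt_const t c
  exact h1.comp_hasDerivAt t h2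

theorem hasDeriv1 {f : (Fin 3 → ℝ) → ℝ} (hf : ContDiff ℝ ∞ f) (a c t : ℝ) :
    HasDerivAt (fun s => f ![a, s, c]) (pd 1 f ![a, t, c]) t := by
  have h1 : HasFDerivAt f (fderiv ℝ f ![a, t, c]) ![a, t, c] :=
    (hf.differentiable (by simp) _).hasFDerivAt
  have h2 : HasDerivAt (fun s : ℝ => (![a, s, c] : Fin 3 → ℝ)) (Pi.single 1 1) t := by
    rw [hasDerivAt_pi]
    intro i
    fin_cases i
    · simpa using hasDerivAt_const t a
    · simpa using hasDerivAt_id' t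
    · simpa using hasDerivAt_const t c
  exact h1.comp_hasDerivAt t h2

theorem hasDeriv2 {f : (Fin 3 → ℝ) → ℝ} (hf : ContDiff ℝ ∞ f) (a b t : ℝ) :
    HasDerivAt (fun s => f ![a, b, s]) (pd 2 f ![a, b, t]) t := by
  have h1 : HasFDerivAt f (fderiv ℝ f ![a, b, t]) ![a, b, t] :=
    (hf.differentiable (by simp) _).hasFDerivAt
  have h2 : HasDerivAt (fun s : ℝ => (![a, b, s] : Fin 3 → ℝ)) (Pi.single 2 1) t := by
    rw [hasDerivAt_pi]
    intro i
    fin_cases i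
    · simpa using hasDerivAt_const t a
    · simpa using hasDerivAt_const t b
    · simpa using hasDerivAt_id' t
  exact h1.comp_hasDerivAt t h2

theorem per2 {e : ℕ} {f : (Fin 3 → ℝ) → ℝ} (hf : f ∈ Inv e) (a b c : ℝ) :
    f ![a, b, c + 1] = f ![a, b, c] := by
  have h := hf.2 ⟨0, 0, 1⟩ ![a, b, c]
  rw [← h]
  congr 1
  ext i
  fin_cases i <;> simp [dact, lt]

theorem per1 {e : ℕ} {f : (Fin 3 → ℝ) → ℝ} (hf : f ∈ Inv e) (a b c : ℝ) :
    f ![a, b + 1, c] = f ![a, b, c] := by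
  have h := hf.2 ⟨0, 1, 0⟩ ![a, b, c]
  rw [← h]
  congr 1
  ext i
  fin_cases i <;> simp [dact, lt]

theorem per0 {e : ℕ} {f : (Fin 3 → ℝ) → ℝ} (hf : f ∈ Inv e) (a b c : ℝ) :
    f ![a + e, b, c + e * b] = f ![a, b, c] := by
  have h := hf.2 ⟨1, 0, 0⟩ ![a, b, c]
  rw [← h]
  congr 1
  ext i
  fin_cases i <;> simp [dact, lt]

theorem inner2 {e : ℕ} {f : (Fin 3 → ℝ) → ℝ} (hf : f ∈ Inv e) (a : ℝ) :
    ∫ q in Ico (0 : ℝ) 1 ×ˢ Ico (0 : ℝ) 1, pd 2 f ![a, q.1, q.2] = 0 := by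
  have hc : Continuous (fun q : ℝ × ℝ => pd 2 f ![a, q.1, q.2]) :=
    (cont_pd3 hf.1 2).comp (by fun_prop : Continuous (fun q : ℝ × ℝ => (a, q)))
  rw [fubC hc]
  have : ∀ b : ℝ, ∫ c in Ico (0 : ℝ) 1, pd 2 f ![a, b, c] = 0 := by
    intro b
    rw [ftc zero_le_one (hasDeriv2 hf.1 a b)
      ((cont_pd3 hf.1 2).comp (by fun_prop : Continuous (fun c : ℝ => (a, (b, c)))))]
    have := per2 hf a b 0
    rw [zero_add] at this
    rw [this, sub_self]
  simp [this]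

theorem inner1 {e : ℕ} {f : (Fin 3 → ℝ) → ℝ} (hf : f ∈ Inv e) (a : ℝ) :
    ∫ q in Ico (0 : ℝ) 1 ×ˢ Ico (0 : ℝ) 1, pd 1 f ![a, q.1, q.2] = 0 := by
  have hc : Continuous (fun q : ℝ × ℝ => pd 1 f ![a, q.1, q.2]) :=
    (cont_pd3 hf.1 1).comp (by fun_prop : Continuous (fun q : ℝ × ℝ => (a, q)))
  rw [fubD hc]
  have : ∀ c : ℝ, ∫ b in Ico (0 : ℝ) 1, pd 1 f ![a, b, c] = 0 := by
    intro c
    rw [ftc zero_le_one (hasDeriv1 hf.1 a c)
      ((cont_pd3 hf.1 1).comp (by fun_prop : Continuous (fun b : ℝ => (a, (b, c)))))]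
    have := per1 hf a 0 c
    rw [zero_add] at this
    rw [this, sub_self]
  simp [this]

theorem inner0 {e : ℕ} {f : (Fin 3 → ℝ) → ℝ} (hf : f ∈ Inv e) (b : ℝ) :
    ∫ c in Ico (0 : ℝ) 1, (f ![(e : ℝ), b, c] - f ![0, b, c]) = 0 := by
  have hcf : Continuous f := hf.1.continuous
  have hc0 : ∀ a : ℝ, Continuous (fun c : ℝ => f ![a, b, c]) := fun a =>
    (hcf.comp cont_vec).comp (by fun_prop : Continuous (fun c : ℝ => (a, (b, c))))
  rw [integral_Ico_eq_integral_Ioo, ← integral_Ioc_eq_integral_Ioo,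
    ← intervalIntegral.integral_of_le zero_le_one,
    intervalIntegral.integral_sub ((hc0 e).intervalIntegrable _ _)
      ((hc0 0).intervalIntegrable _ _)]
  have h1 : ∀ c : ℝ, f ![(e : ℝ), b, c] = f ![0, b, c - e * b] := by
    intro c
    have := per0 hf 0 b (c - e * b)
    rw [zero_add, sub_add_cancel] at this
    exact this
  have hper : Function.Periodic (fun c : ℝ => f ![0, b, c]) 1 := fun c => per2 hf 0 b c
  have h2 : ∫ c in (0 : ℝ)..1, f ![(e : ℝ), b, c] = ∫ c in (0 : ℝ)..1, f ![0, b, c] := by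
    simp_rw [h1]
    rw [intervalIntegral.integral_comp_sub_right (fun c : ℝ => f ![0, b, c]) ((e : ℝ) * b)]
    have := hper.intervalIntegral_add_eq (0 - e * b) 0
    rw [zero_add] at this
    rw [← this]
    congr 1
    ring
  rw [h2, sub_self]

theorem integral_dX {e : ℕ} (_he : 0 < e) {f : (Fin 3 → ℝ) → ℝ} (hf : f ∈ Inv e) :
    ∫ x in dfund e, dX f x = 0 := by
  rw [slice e]
  have hc : Continuous (fun p : ℝ × (ℝ × ℝ) => dX f ![p.1, p.2.1, p.2.2]) := cont_pd3 hf.1 0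
  rw [fubB e hc]
  have h1 : ∀ q : ℝ × ℝ, ∫ a in Ico (0 : ℝ) e, dX f ![a, q.1, q.2] =
      f ![(e : ℝ), q.1, q.2] - f ![0, q.1, q.2] := by
    intro q
    exact ftc (Nat.cast_nonneg e) (hasDeriv0 hf.1 q.1 q.2)
      (hc.comp (by fun_prop : Continuous (fun a : ℝ => (a, q))))
  simp only [h1]
  have hc2 : Continuous (fun q : ℝ × ℝ => f ![(e : ℝ), q.1, q.2] - f ![0, q.1, q.2]) :=
    ((hf.1.continuous.comp cont_vec).comp
      (by fun_prop : Continuous (fun q : ℝ × ℝ => ((e : ℝ), q)))).sub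
    ((hf.1.continuous.comp cont_vec).comp
      (by fun_prop : Continuous (fun q : ℝ × ℝ => ((0 : ℝ), q))))
  rw [fubC hc2]
  simp only [inner0 hf, integral_zero]

theorem integral_dZ {e : ℕ} (_he : 0 < e) {f : (Fin 3 → ℝ) → ℝ} (hf : f ∈ Inv e) :
    ∫ x in dfund e, dZ f x = 0 := by
  rw [slice e]
  have hc : Continuous (fun p : ℝ × (ℝ × ℝ) => dZ f ![p.1, p.2.1, p.2.2]) := cont_pd3 hf.1 2
  rw [fubA e hc]
  simp only [dZ, inner2 hf, integral_zero]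

theorem integral_dY {e : ℕ} (_he : 0 < e) {f : (Fin 3 → ℝ) → ℝ} (hf : f ∈ Inv e) :
    ∫ x in dfund e, dY f x = 0 := by
  rw [slice e]
  have hc : Continuous (fun p : ℝ × (ℝ × ℝ) => dY f ![p.1, p.2.1, p.2.2]) :=
    (cont_pd3 hf.1 1).add (continuous_fst.mul (cont_pd3 hf.1 2))
  rw [fubA e hc]
  have h : ∀ a : ℝ, ∫ q in Ico (0 : ℝ) 1 ×ˢ Ico (0 : ℝ) 1, dY f ![a, q.1, q.2] = 0 := by
    intro a
    have hc1 : Continuous (fun q : ℝ × ℝ => pd 1 f ![a, q.1, q.2]) :=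
      (cont_pd3 hf.1 1).comp (by fun_prop : Continuous (fun q : ℝ × ℝ => (a, q)))
    have hc2 : Continuous (fun q : ℝ × ℝ => a * pd 2 f ![a, q.1, q.2]) :=
      continuous_const.mul
        ((cont_pd3 hf.1 2).comp (by fun_prop : Continuous (fun q : ℝ × ℝ => (a, q))))
    have i1 := intg2 hc1
    have i2 := intg2 hc2
    rw [Measure.prod_restrict] at i1 i2
    have h3 : ∀ q : ℝ × ℝ, dY f ![a, q.1, q.2] =
        pd 1 f ![a, q.1, q.2] + a * pd 2 f ![a, q.1, q.2] := fun q => rfl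
    simp only [h3]
    have h4 := integral_add i1 i2
    refine h4.trans ?_
    have h5 : ∫ q in Ico (0 : ℝ) 1 ×ˢ Ico (0 : ℝ) 1, a * pd 2 f ![a, q.1, q.2] = 0 := by
      rw [integral_const_mul, inner2 hf, mul_zero]
    have h6 := inner1 hf a
    have h7 : ∫ q in Ico (0 : ℝ) 1 ×ˢ Ico (0 : ℝ) 1, pd 1 f ![a, q.1, q.2] +
        0 = 0 := by simpa using h6
    erw [h6, h5]
    simp
  simp only [h, integral_zero]

end Pool.Agent.H793.Nil
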