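import Pool.Agent.H793.Nil.Defs

/-! The Heisenberg group `ℝ³` with its left invariant metric, and the lattices `eℤ × ℤ × ℤ`. -/

set_option autoImplicit false

open scoped ContDiff Topology
open MeasureTheory Matrix

namespace Pool.Agent.H793.Nil

open Pool.Agent.H85R3.RM

/-- Left translation by `(a, b, c)` in the Heisenberg group `ℝ³`. -/
def lt (a b c : ℝ) (x : Fin 3 → ℝ) : Fin 3 → ℝ := ![x 0 + a, x 1 + b, x 2 + c + a * x 1]

/-- The left invariant metric `dx² + dy² + (dz - x dy)²`. -/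
def met (x : Fin 3 → ℝ) : Matrix (Fin 3) (Fin 3) ℝ :=
  !![1, 0, 0; 0, 1 + x 0 ^ 2, - x 0; 0, - x 0, 1]

/-- The deck group, the lattice `{(e a, b, c)}`. -/
@[ext] structure Dk (e : ℕ) where
  a : ℤ
  b : ℤ
  c : ℤ

instance (e : ℕ) : Group (Dk e) :=
  { mul := fun g h => ⟨g.a + h.a, g.b + h.b, g.c + h.c + e * g.a * h.b⟩
    one := ⟨0, 0, 0⟩
    inv := fun g => ⟨-g.a, -g.b, -g.c + e * g.a * g.b⟩
    mul_assoc := fun g h k => by
      ext
      · exact add_assoc _ _ _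
      · exact add_assoc _ _ _
      · show g.c + h.c + e * g.a * h.b + k.c + e * (g.a + h.a) * k.b =
          g.c + (h.c + k.c + e * h.a * k.b) + e * g.a * (h.b + k.b)
        ring
    one_mul := fun g => by
      ext
      · exact zero_add _
      · exact zero_add _
      · show 0 + g.c + e * 0 * g.b = g.c
        ring
    mul_one := fun g => by
      ext
      · exact add_zero _
      · exact add_zero _
      · show g.c + 0 + e * g.a * 0 = g.c
        ring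
    inv_mul_cancel := fun g => by
      ext
      · exact neg_add_cancel _
      · exact neg_add_cancel _
      · show -g.c + e * g.a * g.b + g.c + e * (-g.a) * g.b = 0
        ring }

/-- The action of the lattice by left translations. -/
def dact {e : ℕ} (g : Dk e) (x : Fin 3 → ℝ) : Fin 3 → ℝ := lt (e * g.a) g.b g.c x

/-- The fundamental domain `[0, e) × [0, 1) × [0, 1)`. -/
def dfund (e : ℕ) : Set (Fin 3 → ℝ) :=
  {x | (0 ≤ x 0 ∧ x 0 < e) ∧ (0 ≤ x 1 ∧ x 1 < 1) ∧ (0 ≤ x 2 ∧ x 2 < 1)}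

theorem mul_a {e : ℕ} (g h : Dk e) : (g * h).a = g.a + h.a := rfl
theorem mul_b {e : ℕ} (g h : Dk e) : (g * h).b = g.b + h.b := rfl
theorem mul_c {e : ℕ} (g h : Dk e) : (g * h).c = g.c + h.c + e * g.a * h.b := rfl
theorem one_a {e : ℕ} : (1 : Dk e).a = 0 := rfl
theorem one_b {e : ℕ} : (1 : Dk e).b = 0 := rfl
theorem one_c {e : ℕ} : (1 : Dk e).c = 0 := rfl

theorem lt_lt (a b c a' b' c' : ℝ) (x : Fin 3 → ℝ) :
    lt a b c (lt a' b' c' x) = lt (a + a') (b + b') (c + c' + a * b') x := by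
  ext i
  fin_cases i <;> simp [lt] <;> ring

theorem lt_zero (x : Fin 3 → ℝ) : lt 0 0 0 x = x := by
  ext i
  fin_cases i <;> simp [lt]

theorem dact_one {e : ℕ} (x : Fin 3 → ℝ) : dact (1 : Dk e) x = x := by
  simp [dact, one_a, one_b, one_c, lt_zero]

theorem dact_mul {e : ℕ} (g h : Dk e) (x : Fin 3 → ℝ) : dact (g * h) x = dact g (dact h x) := by
  simp only [dact, lt_lt, mul_a, mul_b, mul_c]
  congr 1
  all_goals push_cast
  all_goals ring

theorem contDiff_lt (a b c : ℝ) : ContDiff ℝ ∞ (lt a b c) := by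
  rw [contDiff_pi]
  intro i
  fin_cases i <;> simp [lt] <;> fun_prop

theorem fderiv_lt (a b c : ℝ) (x v : Fin 3 → ℝ) :
    fderiv ℝ (lt a b c) x v = ![v 0, v 1, v 2 + a * v 1] := by
  have h : HasFDerivAt (lt a b c) (ContinuousLinearMap.pi (![ContinuousLinearMap.proj 0,
      ContinuousLinearMap.proj 1,
      ContinuousLinearMap.proj 2 + a • ContinuousLinearMap.proj 1] :
        Fin 3 → ((Fin 3 → ℝ) →L[ℝ] ℝ))) x := by
    rw [hasFDerivAt_pi']
    intro i
    fin_cases i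
    · exact (hasFDerivAt_apply (0 : Fin 3) x).add_const a
    · exact (hasFDerivAt_apply (1 : Fin 3) x).add_const b
    · exact ((hasFDerivAt_apply (2 : Fin 3) x).add_const c).add
        ((hasFDerivAt_apply (1 : Fin 3) x).const_mul a)
  rw [h.fderiv]
  ext i
  fin_cases i <;> simp

theorem met_apply (x v w : Fin 3 → ℝ) :
    v ⬝ᵥ (met x *ᵥ w) = v 0 * w 0 + v 1 * w 1 + (v 2 - x 0 * v 1) * (w 2 - x 0 * w 1) := by
  simp [met, dotProduct, Matrix.mulVec, Fin.sum_univ_three]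
  ring

theorem isometry_lt (a b c : ℝ) (x v w : Fin 3 → ℝ) :
    (fderiv ℝ (lt a b c) x v) ⬝ᵥ (met (lt a b c x) *ᵥ (fderiv ℝ (lt a b c) x w)) =
      v ⬝ᵥ (met x *ᵥ w) := by
  rw [met_apply, met_apply, fderiv_lt, fderiv_lt]
  simp [lt]
  ring

theorem smooth_met (i j : Fin 3) : ContDiff ℝ ∞ (fun x => met x i j) := by
  fin_cases i <;> fin_cases j <;> simp [met] <;> fun_prop

theorem posDef_met (x : Fin 3 → ℝ) : (met x).PosDef := by
  refine Matrix.PosDef.of_dotProduct_mulVec_pos ?_ ?_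
  · ext i j
    fin_cases i <;> fin_cases j <;> simp [met]
  · intro v hv
    have h1 : star v = v := rfl
    rw [h1, met_apply]
    by_contra hcon
    rw [not_lt] at hcon
    have h0 : v 0 = 0 := by nlinarith [mul_self_nonneg (v 0), mul_self_nonneg (v 1), mul_self_nonneg (v 2 - x 0 * v 1)]
    have h2 : v 1 = 0 := by nlinarith [mul_self_nonneg (v 0), mul_self_nonneg (v 1), mul_self_nonneg (v 2 - x 0 * v 1)]
    have h3 : v 2 - x 0 * v 1 = 0 := by nlinarith [mul_self_nonneg (v 0), mul_self_nonneg (v 1), mul_self_nonneg (v 2 - x 0 * v 1)]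
    have h4 : v 2 = 0 := by rw [h2] at h3; linarith
    apply hv
    ext i
    fin_cases i
    · exact h0
    · exact h2
    · exact h4

theorem det_met (x : Fin 3 → ℝ) : (met x).det = 1 := by
  simp [met, Matrix.det_fin_three]
  ring

theorem met_inv (x : Fin 3 → ℝ) :
    (met x)⁻¹ = !![1, 0, 0; 0, 1, x 0; 0, x 0, 1 + x 0 ^ 2] := by
  apply Matrix.inv_eq_right_inv
  ext i j
  fin_cases i <;> fin_cases j <;> simp [met, Matrix.mul_apply, Fin.sum_univ_three] <;> ring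

theorem dact_0 {e : ℕ} (g : Dk e) (x : Fin 3 → ℝ) : dact g x 0 = x 0 + e * g.a := rfl

theorem dact_1 {e : ℕ} (g : Dk e) (x : Fin 3 → ℝ) : dact g x 1 = x 1 + g.b := rfl

theorem dact_2 {e : ℕ} (g : Dk e) (x : Fin 3 → ℝ) :
    dact g x 2 = x 2 + g.c + e * g.a * x 1 := rfl

theorem int_zero {z : ℤ} {r : ℝ} (h : |(z : ℝ)| ≤ r) (hr : r < 1) : z = 0 := by
  have h1 : |(z : ℝ)| < 1 := lt_of_le_of_lt h hr
  have h2 : |z| < 1 := by exact_mod_cast h1
  exact Int.abs_lt_one_iff.1 h2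

theorem e_mul_abs {e : ℕ} (he : 0 < e) (a : ℤ) : |(a : ℝ)| ≤ |(e : ℝ) * a| := by
  rw [abs_mul]
  have h1 : (1 : ℝ) ≤ |(e : ℝ)| := by
    rw [Nat.abs_cast]
    exact_mod_cast he
  nlinarith [abs_nonneg (a : ℝ)]

theorem covering {e : ℕ} (he : 0 < e) (x : Fin 3 → ℝ) :
    ∃ U ∈ 𝓝 x, ∀ g : Dk e, g ≠ 1 → ∀ y ∈ U, dact g y ∉ U := by
  refine ⟨Metric.ball x (1 / 4), Metric.ball_mem_nhds x (by norm_num), ?_⟩
  intro g hg y hy hgy
  rw [Metric.mem_ball, dist_pi_lt_iff (by norm_num)] at hy hgy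
  have h0 := hy 0
  have h1 := hy 1
  have h2 := hy 2
  have k0 := hgy 0
  have k1 := hgy 1
  have k2 := hgy 2
  rw [Real.dist_eq] at h0 h1 h2 k0 k1 k2
  rw [dact_0] at k0
  rw [dact_1] at k1
  rw [dact_2] at k2
  rw [abs_lt] at h0 h1 h2 k0 k1 k2
  have ha : g.a = 0 := by
    refine int_zero (r := 1 / 2) ((e_mul_abs he g.a).trans ?_) (by norm_num)
    rw [abs_le]
    constructor <;> linarith
  have hb : g.b = 0 := by
    refine int_zero (r := 1 / 2) ?_ (by norm_num)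
    rw [abs_le]
    constructor <;> linarith
  have hc : g.c = 0 := by
    refine int_zero (r := 1 / 2) ?_ (by norm_num)
    rw [ha, Int.cast_zero, mul_zero, zero_mul, add_zero] at k2
    rw [abs_le]
    constructor <;> linarith
  exact hg (Dk.ext ha hb hc)

theorem finite_box {e : ℕ} (N : ℤ) :
    {g : Dk e | |g.a| ≤ N ∧ |g.b| ≤ N ∧ |g.c| ≤ N}.Finite := by
  have h1 := ((Set.finite_Icc (-N) N).prod ((Set.finite_Icc (-N) N).prod
    (Set.finite_Icc (-N) N)))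
  have h2 : Function.Injective (fun g : Dk e => ((g.a, g.b, g.c) : ℤ × ℤ × ℤ)) := by
    intro g h hgh
    have h3 : ((g.a, g.b, g.c) : ℤ × ℤ × ℤ) = (h.a, h.b, h.c) := hgh
    rw [Prod.mk.injEq, Prod.mk.injEq] at h3
    exact Dk.ext h3.1 h3.2.1 h3.2.2
  refine (h1.preimage h2.injOn).subset ?_
  rintro g ⟨ha, hb, hc⟩
  rw [abs_le] at ha hb hc
  exact ⟨ha, hb, hc⟩

theorem continuous_dact {e : ℕ} (g : Dk e) : Continuous (dact g) := (contDiff_lt _ _ _).continuous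

theorem separated {e : ℕ} (he : 0 < e) (x y : Fin 3 → ℝ) (h : ∀ g : Dk e, dact g x ≠ y) :
    ∃ U ∈ 𝓝 x, ∃ V ∈ 𝓝 y, ∀ g : Dk e, ∀ z ∈ U, dact g z ∉ V := by
  obtain ⟨N, hN⟩ := exists_nat_ge (|y 0 - x 0| + 2 + (|y 1 - x 1| + 2) + (|y 2 - x 2| + 2) +
    (|y 0 - x 0| + 2) * (|x 1| + 1))
  have hfin := finite_box (e := e) (N : ℤ)
  have hsep : ∀ g : Dk e, ∃ U ∈ 𝓝 x, ∃ V ∈ 𝓝 y, ∀ z ∈ U, dact g z ∉ V := by
    intro g
    obtain ⟨u, v, hu, hv, hxu, hyv, huv⟩ := t2_separation (h g)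
    refine ⟨dact g ⁻¹' u, (continuous_dact g).continuousAt.preimage_mem_nhds (hu.mem_nhds hxu), v,
      hv.mem_nhds hyv, ?_⟩
    intro z hz hzv
    exact Set.disjoint_left.1 huv hz hzv
  choose U hU V hV hUV using hsep
  refine ⟨Metric.ball x 1 ∩ ⋂ g ∈ {g : Dk e | |g.a| ≤ (N : ℤ) ∧ |g.b| ≤ (N : ℤ) ∧
      |g.c| ≤ (N : ℤ)}, U g,
    Filter.inter_mem (Metric.ball_mem_nhds x one_pos) ((Filter.biInter_mem hfin).2 fun g _ => hU g),
    Metric.ball y 1 ∩ ⋂ g ∈ {g : Dk e | |g.a| ≤ (N : ℤ) ∧ |g.b| ≤ (N : ℤ) ∧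
      |g.c| ≤ (N : ℤ)}, V g,
    Filter.inter_mem (Metric.ball_mem_nhds y one_pos) ((Filter.biInter_mem hfin).2 fun g _ => hV g),
    ?_⟩
  rintro g z ⟨hz, hzU⟩ ⟨hgz, hgzV⟩
  have hg : g ∈ {g : Dk e | |g.a| ≤ (N : ℤ) ∧ |g.b| ≤ (N : ℤ) ∧ |g.c| ≤ (N : ℤ)} := by
    rw [Metric.mem_ball, dist_pi_lt_iff one_pos] at hz hgz
    have h0 := hz 0
    have h1 := hz 1
    have h2 := hz 2
    have k0 := hgz 0
    have k1 := hgz 1
    have k2 := hgz 2
    rw [Real.dist_eq] at h0 h1 h2 k0 k1 k2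
    rw [dact_0] at k0
    rw [dact_1] at k1
    rw [dact_2] at k2
    have A0 : |(e : ℝ) * g.a| ≤ |y 0 - x 0| + 2 := by
      have e1 : (e : ℝ) * g.a = (z 0 + e * g.a - y 0) + (y 0 - x 0) - (z 0 - x 0) := by ring
      rw [e1]
      have := abs_sub ((z 0 + e * g.a - y 0) + (y 0 - x 0)) (z 0 - x 0)
      have := abs_add_le (z 0 + e * g.a - y 0) (y 0 - x 0)
      linarith
    have B0 : |(g.b : ℝ)| ≤ |y 1 - x 1| + 2 := by
      have e1 : (g.b : ℝ) = (z 1 + g.b - y 1) + (y 1 - x 1) - (z 1 - x 1) := by ring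
      rw [e1]
      have := abs_sub ((z 1 + g.b - y 1) + (y 1 - x 1)) (z 1 - x 1)
      have := abs_add_le (z 1 + g.b - y 1) (y 1 - x 1)
      linarith
    have Z1 : |z 1| ≤ |x 1| + 1 := by
      have e1 : z 1 = x 1 + (z 1 - x 1) := by ring
      rw [e1]
      have := abs_add_le (x 1) (z 1 - x 1)
      linarith
    have C0 : |(g.c : ℝ)| ≤ |y 2 - x 2| + 2 + (|y 0 - x 0| + 2) * (|x 1| + 1) := by
      have e1 : (g.c : ℝ) = (z 2 + g.c + e * g.a * z 1 - y 2) + (y 2 - x 2) - (z 2 - x 2) -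
          e * g.a * z 1 := by ring
      rw [e1]
      have t1 := abs_sub ((z 2 + g.c + e * g.a * z 1 - y 2) + (y 2 - x 2) - (z 2 - x 2))
        (e * g.a * z 1)
      have t2 := abs_sub ((z 2 + g.c + e * g.a * z 1 - y 2) + (y 2 - x 2)) (z 2 - x 2)
      have t3 := abs_add_le (z 2 + g.c + e * g.a * z 1 - y 2) (y 2 - x 2)
      have t4 : |(e : ℝ) * g.a * z 1| ≤ (|y 0 - x 0| + 2) * (|x 1| + 1) := by
        rw [abs_mul]
        exact mul_le_mul A0 Z1 (abs_nonneg _) (by positivity)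
      linarith
    have P : 0 ≤ (|y 0 - x 0| + 2) * (|x 1| + 1) := by positivity
    have Q0 := abs_nonneg (y 0 - x 0)
    have Q1 := abs_nonneg (y 1 - x 1)
    have Q2 := abs_nonneg (y 2 - x 2)
    refine ⟨?_, ?_, ?_⟩
    · have : |(g.a : ℝ)| ≤ (N : ℝ) := by
        have := e_mul_abs he g.a
        linarith
      exact_mod_cast this
    · have : |(g.b : ℝ)| ≤ (N : ℝ) := by linarith
      exact_mod_cast this
    · have : |(g.c : ℝ)| ≤ (N : ℝ) := by linarith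
      exact_mod_cast this
  exact hUV g z (Set.mem_iInter₂.1 hzU g hg) (Set.mem_iInter₂.1 hgzV g hg)

theorem measurable_dfund (e : ℕ) : MeasurableSet (dfund e) := by
  have h0 : MeasurableSet ((fun x : Fin 3 → ℝ => x 0) ⁻¹' Set.Ico 0 (e : ℝ)) :=
    measurableSet_Ico.preimage (measurable_pi_apply 0)
  have h1 : MeasurableSet ((fun x : Fin 3 → ℝ => x 1) ⁻¹' Set.Ico 0 (1 : ℝ)) :=
    measurableSet_Ico.preimage (measurable_pi_apply 1)
  have h2 : MeasurableSet ((fun x : Fin 3 → ℝ => x 2) ⁻¹' Set.Ico 0 (1 : ℝ)) :=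
    measurableSet_Ico.preimage (measurable_pi_apply 2)
  exact h0.inter (h1.inter h2)

theorem dfund_unique {e : ℕ} (he : 0 < e) (x : Fin 3 → ℝ) : ∃! g : Dk e, dact g x ∈ dfund e := by
  have he' : (0 : ℝ) < e := by exact_mod_cast he
  refine ⟨⟨-⌊x 0 / e⌋, -⌊x 1⌋, -⌊x 2 + e * ((-⌊x 0 / e⌋ : ℤ) : ℝ) * x 1⌋⟩, ?_, ?_⟩
  · have h1 := Int.floor_le (x 0 / e)
    have h2 := Int.lt_floor_add_one (x 0 / e)
    rw [le_div_iff₀ he'] at h1
    rw [div_lt_iff₀ he'] at h2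
    refine ⟨⟨?_, ?_⟩, ⟨?_, ?_⟩, ?_, ?_⟩
    · rw [dact_0]
      push_cast
      nlinarith
    · rw [dact_0]
      push_cast
      nlinarith
    · rw [dact_1]
      push_cast
      have := Int.floor_le (x 1)
      linarith
    · rw [dact_1]
      push_cast
      have := Int.lt_floor_add_one (x 1)
      linarith
    · rw [dact_2]
      have := Int.floor_le (x 2 + e * ((-⌊x 0 / e⌋ : ℤ) : ℝ) * x 1)
      rw [Int.cast_neg ⌊x 2 + e * ((-⌊x 0 / e⌋ : ℤ) : ℝ) * x 1⌋]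
      linarith
    · rw [dact_2]
      have := Int.lt_floor_add_one (x 2 + e * ((-⌊x 0 / e⌋ : ℤ) : ℝ) * x 1)
      rw [Int.cast_neg ⌊x 2 + e * ((-⌊x 0 / e⌋ : ℤ) : ℝ) * x 1⌋]
      linarith
  · rintro g ⟨⟨h1, h2⟩, ⟨h3, h4⟩, h5, h6⟩
    rw [dact_0] at h1 h2
    rw [dact_1] at h3 h4
    rw [dact_2] at h5 h6
    have ha : g.a = -⌊x 0 / e⌋ := by
      have : ⌊x 0 / e⌋ = -g.a := by
        rw [Int.floor_eq_iff]
        push_cast
        constructor
        · rw [le_div_iff₀ he']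
          linarith
        · rw [div_lt_iff₀ he']
          linarith
      rw [this, neg_neg]
    have hb : g.b = -⌊x 1⌋ := by
      have : ⌊x 1⌋ = -g.b := by
        rw [Int.floor_eq_iff]
        push_cast
        constructor <;> linarith
      rw [this, neg_neg]
    have hc : g.c = -⌊x 2 + e * ((-⌊x 0 / e⌋ : ℤ) : ℝ) * x 1⌋ := by
      rw [← ha]
      have : ⌊x 2 + e * (g.a : ℝ) * x 1⌋ = -g.c := by
        rw [Int.floor_eq_iff]
        push_cast
        constructor <;> linarith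
      rw [this, neg_neg]
    exact Dk.ext ha hb hc

/-- The Heisenberg nilmanifold `Γ_e \ ℝ³`, `Γ_e = eℤ × ℤ × ℤ`. -/
noncomputable def heis (e : ℕ) (he : 0 < e) : ClosedManifold 3 where
  dom := Set.univ
  isOpen_dom := isOpen_univ
  isConnected_dom := isConnected_univ
  metric := met
  smooth_metric := fun i j => (smooth_met i j).contDiffOn
  posDef_metric := fun x _ => posDef_met x
  deck := Dk e
  group_deck := inferInstance
  act := dact
  act_mem := fun _ _ _ => Set.mem_univ _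
  act_one := fun x _ => dact_one x
  act_mul := fun g h x _ => dact_mul g h x
  smooth_act := fun g => (contDiff_lt _ _ _).contDiffOn
  isometry_act := fun g x _ v w => isometry_lt _ _ _ x v w
  covering_act := fun x _ => by
    obtain ⟨U, hU, h⟩ := covering he x
    exact ⟨U, hU, fun g hg y hy _ => h g hg y hy⟩
  separated_act := fun x _ y _ h => by
    obtain ⟨U, hU, V, hV, h'⟩ := separated he x y h
    exact ⟨U, hU, V, hV, fun g z hz _ => h' g z hz⟩
  cocompact_act := by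
    refine ⟨Set.pi Set.univ (fun i : Fin 3 => Set.Icc 0 (![(e : ℝ), 1, 1] i)), Set.subset_univ _,
      isCompact_univ_pi fun i => isCompact_Icc, fun x _ => ?_⟩
    obtain ⟨g, hg, -⟩ := dfund_unique he x
    refine ⟨g, fun i _ => ?_⟩
    obtain ⟨⟨h1, h2⟩, ⟨h3, h4⟩, h5, h6⟩ := hg
    fin_cases i
    · exact ⟨h1, h2.le⟩
    · exact ⟨h3, h4.le⟩
    · exact ⟨h5, h6.le⟩
  fund := dfund e
  measurable_fund := measurable_dfund e
  fund_subset := Set.subset_univ _
  fund_unique := fun x _ => dfund_unique he x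

/-- The left invariant vector field `X = ∂_x`. -/
noncomputable def dX (f : (Fin 3 → ℝ) → ℝ) (x : Fin 3 → ℝ) : ℝ := pd 0 f x

/-- The left invariant vector field `Y = ∂_y + x ∂_z`. -/
noncomputable def dY (f : (Fin 3 → ℝ) → ℝ) (x : Fin 3 → ℝ) : ℝ := pd 1 f x + x 0 * pd 2 f x

/-- The left invariant vector field `Z = ∂_z`. -/
noncomputable def dZ (f : (Fin 3 → ℝ) → ℝ) (x : Fin 3 → ℝ) : ℝ := pd 2 f x

/-- The Laplacian `X² + Y² + Z²` of the left invariant metric. -/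
noncomputable def lap (f : (Fin 3 → ℝ) → ℝ) (x : Fin 3 → ℝ) : ℝ :=
  dX (dX f) x + dY (dY f) x + dZ (dZ f) x

/-- The smooth functions on the nilmanifold. -/
def Inv (e : ℕ) : Submodule ℝ ((Fin 3 → ℝ) → ℝ) where
  carrier := {f | ContDiff ℝ ∞ f ∧ ∀ g : Dk e, ∀ x, f (dact g x) = f x}
  add_mem' := fun {f₁ f₂} hf hg => ⟨hf.1.add hg.1, fun g x => by
    show f₁ (dact g x) + f₂ (dact g x) = f₁ x + f₂ x
    rw [hf.2, hg.2]⟩
  zero_mem' := ⟨contDiff_const, fun _ _ => rfl⟩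
  smul_mem' := fun c f hf => ⟨contDiff_const.smul hf.1, fun g x => by
    show c * f (dact g x) = c * f x
    rw [hf.2]⟩

end Pool.Agent.H793.Nil
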