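import Pool.Agent.H793.Nil.Heis

set_option autoImplicit false
/-! Task S2 of project Nil (helper793), MP_1b44ce_gt: Christoffel symbols and the Ricci tensor of the
Heisenberg metric (helper155). -/


open scoped ContDiff Topology
open MeasureTheory Matrix

namespace Pool.Agent.H793.Nil

open Pool.Agent.H85R3.RM

/-- The Christoffel symbols `Γ^k_{ij}` of the Heisenberg metric, as functions of `s = x 0`. -/
noncomputable def chr (s : ℝ) (k i j : Fin 3) : ℝ :=
  (![!![0, 0, 0; 0, -s, 1 / 2; 0, 1 / 2, 0],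
    !![0, s / 2, -(1 / 2); s / 2, 0, 0; -(1 / 2), 0, 0],
    !![0, (s ^ 2 - 1) / 2, -(s / 2); (s ^ 2 - 1) / 2, 0, 0; -(s / 2), 0, 0]] k : Matrix (Fin 3) (Fin 3) ℝ) i j

/-- Partial derivatives of functions of the first coordinate. -/
theorem pd_of_first {φ : ℝ → ℝ} {x : Fin 3 → ℝ} {φ' : ℝ}
    (hφ : HasDerivAt φ φ' (x 0)) (i : Fin 3) :
    pd i (fun y : Fin 3 → ℝ => φ (y 0)) x = if i = 0 then φ' else 0 := by
  unfold pd
  have h1 : HasFDerivAt (fun y : Fin 3 → ℝ => y 0) (ContinuousLinearMap.proj (R := ℝ) 0) x :=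
    (ContinuousLinearMap.proj (R := ℝ) (φ := fun _ : Fin 3 => ℝ) 0).hasFDerivAt
  have h2 : HasFDerivAt (fun y : Fin 3 → ℝ => φ (y 0)) _ x := hφ.comp_hasFDerivAt x h1
  rw [h2.fderiv]
  simp only [ContinuousLinearMap.smul_apply, ContinuousLinearMap.proj_apply, smul_eq_mul]
  split_ifs with h
  · rw [h]; simp
  · rw [Pi.single_eq_of_ne (Ne.symm h), mul_zero]

/-- Partial derivatives of quadratic polynomials in the first coordinate. -/
theorem pd_quad (a b c : ℝ) (x : Fin 3 → ℝ) (i : Fin 3) :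
    pd i (fun y : Fin 3 → ℝ => a + b * y 0 + c * y 0 ^ 2) x =
      if i = 0 then b + c * (2 * x 0) else 0 := by
  have h1 : HasDerivAt (fun s : ℝ => a + b * s + c * s ^ 2) (b + c * (2 * x 0)) (x 0) := by
    have h2 := (((hasDerivAt_id (x 0)).const_mul b).const_add a).add
      ((hasDerivAt_pow 2 (x 0)).const_mul c)
    refine h2.congr_deriv ?_
    norm_num
  exact pd_of_first h1 i

/-- The coefficients of the metric. -/
def mA : Matrix (Fin 3) (Fin 3) ℝ := !![1, 0, 0; 0, 1, 0; 0, 0, 1]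

/-- The coefficients of the metric. -/
def mB : Matrix (Fin 3) (Fin 3) ℝ := !![0, 0, 0; 0, 0, -1; 0, -1, 0]

/-- The coefficients of the metric. -/
def mC : Matrix (Fin 3) (Fin 3) ℝ := !![0, 0, 0; 0, 1, 0; 0, 0, 0]

theorem met_eq (i j : Fin 3) (x : Fin 3 → ℝ) :
    met x i j = mA i j + mB i j * x 0 + mC i j * x 0 ^ 2 := by
  fin_cases i <;> fin_cases j <;> simp [met, mA, mB, mC]

theorem pd_met (m i j : Fin 3) (x : Fin 3 → ℝ) :
    pd m (fun y => met y i j) x = if m = 0 then mB i j + mC i j * (2 * x 0) else 0 := by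
  have h : (fun y : Fin 3 → ℝ => met y i j) =
      fun y => mA i j + mB i j * y 0 + mC i j * y 0 ^ 2 := funext fun y => met_eq i j y
  rw [h]
  exact pd_quad _ _ _ x m

theorem christoffel_met (k i j : Fin 3) (x : Fin 3 → ℝ) :
    christoffel met k i j x = chr (x 0) k i j := by
  unfold christoffel
  rw [met_inv]
  simp only [pd_met, Fin.sum_univ_three]
  fin_cases k <;> fin_cases i <;> fin_cases j <;> simp [mB, mC, chr] <;> ring

/-- The coefficients of the Christoffel symbols. -/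
noncomputable def cA (k i j : Fin 3) : ℝ :=
  (![!![0, 0, 0; 0, 0, 1 / 2; 0, 1 / 2, 0],
    !![0, 0, -(1 / 2); 0, 0, 0; -(1 / 2), 0, 0],
    !![0, -(1 / 2), 0; -(1 / 2), 0, 0; 0, 0, 0]] k : Matrix (Fin 3) (Fin 3) ℝ) i j

/-- The coefficients of the Christoffel symbols. -/
noncomputable def cB (k i j : Fin 3) : ℝ :=
  (![!![0, 0, 0; 0, -1, 0; 0, 0, 0],
    !![0, 1 / 2, 0; 1 / 2, 0, 0; 0, 0, 0],
    !![0, 0, -(1 / 2); 0, 0, 0; -(1 / 2), 0, 0]] k : Matrix (Fin 3) (Fin 3) ℝ) i j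

/-- The coefficients of the Christoffel symbols. -/
noncomputable def cC (k i j : Fin 3) : ℝ :=
  (![!![0, 0, 0; 0, 0, 0; 0, 0, 0],
    !![0, 0, 0; 0, 0, 0; 0, 0, 0],
    !![0, 1 / 2, 0; 1 / 2, 0, 0; 0, 0, 0]] k : Matrix (Fin 3) (Fin 3) ℝ) i j

theorem chr_eq (s : ℝ) (k i j : Fin 3) :
    chr s k i j = cA k i j + cB k i j * s + cC k i j * s ^ 2 := by
  fin_cases k <;> fin_cases i <;> fin_cases j <;> simp [chr, cA, cB, cC] <;> ring

theorem pd_christoffel (m k i j : Fin 3) (x : Fin 3 → ℝ) :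
    pd m (christoffel met k i j) x =
      if m = 0 then cB k i j + cC k i j * (2 * x 0) else 0 := by
  have h : christoffel met k i j =
      fun y => cA k i j + cB k i j * y 0 + cC k i j * y 0 ^ 2 := funext fun y => by
    rw [christoffel_met, chr_eq]
  rw [h]
  exact pd_quad _ _ _ x m

/-- The Ricci tensor. -/
noncomputable def rcc (s : ℝ) : Matrix (Fin 3) (Fin 3) ℝ :=
  !![-(1 / 2), 0, 0; 0, -(1 / 2) + s ^ 2 / 2, -(s / 2); 0, -(s / 2), 1 / 2]

theorem ricci_met (i j : Fin 3) (x : Fin 3 → ℝ) : ricci met i j x = rcc (x 0) i j := by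
  unfold ricci
  simp only [pd_christoffel, christoffel_met, Fin.sum_univ_three]
  fin_cases i <;> fin_cases j <;> simp [cB, cC, chr, rcc] <;> ring

theorem ricci_form (x v : Fin 3 → ℝ) : ∑ i, ∑ j, ricci met i j x * v i * v j =
    -(1 / 2) * v 0 ^ 2 - 1 / 2 * v 1 ^ 2 + 1 / 2 * (v 2 - x 0 * v 1) ^ 2 := by
  simp only [ricci_met, Fin.sum_univ_three]
  simp [rcc]
  ring

theorem ricci_heis (e : ℕ) (he : 0 < e) : RicciGE (heis e he) (-((3 - 1) * (1 / 4))) := by
  intro x _ v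
  show -((3 - 1) * (1 / 4)) * (v ⬝ᵥ (met x *ᵥ v)) ≤ ∑ i, ∑ j, ricci met i j x * v i * v j
  rw [ricci_form, met_apply]
  nlinarith [sq_nonneg (v 2 - x 0 * v 1)]

end Pool.Agent.H793.Nil
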