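import Pool.Agent.H793.Nil.FrameDef

set_option autoImplicit false

open scoped ContDiff Topology
open MeasureTheory Matrix

namespace Pool.Agent.H793.Nil


/-- mean value inequality on `[0, 1]` -/
lemma mv {E : Type*} [NormedAddCommGroup E] [NormedSpace ℝ E] (f f' : ℝ → E) (c : ℝ) (hc : 0 ≤ c)
    (hf : ∀ t, HasDerivAt f (f' t) t) (hb : ∀ t ∈ Set.Icc (0 : ℝ) 1, ‖f' t‖ ≤ c) :
    ∀ t ∈ Set.Icc (0 : ℝ) 1, ‖f t - f 0‖ ≤ c := by
  intro t ht
  have h := norm_image_sub_le_of_norm_deriv_le_segment' (f := f) (f' := f') (a := 0) (b := 1)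
    (C := c) (fun x _ => (hf x).hasDerivWithinAt) (fun x hx => hb x ⟨hx.1, hx.2.le⟩) t ht
  refine h.trans ?_
  nlinarith [ht.1, ht.2]

variable {x y z u v x' y' z' u' v' : ℝ → ℝ} {w w' : ℝ}

lemma energy (h : FrameODE x y z u v w) (t : ℝ) : u t ^ 2 + v t ^ 2 = u 0 ^ 2 + v 0 ^ 2 := by
  have hd : ∀ s, HasDerivAt (fun r => u r ^ 2 + v r ^ 2) 0 s := by
    intro s
    have := ((h.hu s).pow 2).add ((h.hv s).pow 2)
    refine this.congr_deriv ?_
    push_cast
    ring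
  exact is_const_of_deriv_eq_zero (fun s => (hd s).differentiableAt) (fun s => (hd s).deriv) t 0

lemma abs_lt_of_sq (a b : ℝ) (h : a ^ 2 + b < (1 / 8) ^ 2) (hb : 0 ≤ b) : |a| ≤ 1 / 8 := by
  apply abs_le_of_sq_le_sq _ (by norm_num)
  linarith

lemma abs_u (h : FrameODE x y z u v w) (hs : u 0 ^ 2 + v 0 ^ 2 + w ^ 2 < (1 / 8) ^ 2) (t : ℝ) :
    |u t| ≤ 1 / 8 := by
  apply abs_lt_of_sq _ (v t ^ 2 + w ^ 2) _ (by positivity)
  have := energy h t
  linarith

lemma abs_v (h : FrameODE x y z u v w) (hs : u 0 ^ 2 + v 0 ^ 2 + w ^ 2 < (1 / 8) ^ 2) (t : ℝ) :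
    |v t| ≤ 1 / 8 := by
  apply abs_lt_of_sq _ (u t ^ 2 + w ^ 2) _ (by positivity)
  have := energy h t
  linarith

lemma abs_w (hs : u 0 ^ 2 + v 0 ^ 2 + w ^ 2 < (1 / 8) ^ 2) : |w| ≤ 1 / 8 := by
  apply abs_lt_of_sq _ (u 0 ^ 2 + v 0 ^ 2) _ (by positivity)
  linarith

lemma abs_x (h : FrameODE x y z u v w) (hs : u 0 ^ 2 + v 0 ^ 2 + w ^ 2 < (1 / 8) ^ 2) :
    ∀ t ∈ Set.Icc (0 : ℝ) 1, |x t - x 0| ≤ 1 / 8 :=
  mv x u (1 / 8) (by norm_num) h.hx fun t _ => abs_u h hs t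

lemma abs_y (h : FrameODE x y z u v w) (hs : u 0 ^ 2 + v 0 ^ 2 + w ^ 2 < (1 / 8) ^ 2) :
    ∀ t ∈ Set.Icc (0 : ℝ) 1, |y t - y 0| ≤ 1 / 8 :=
  mv y v (1 / 8) (by norm_num) h.hy fun t _ => abs_v h hs t

/-- S3b, the size of a short geodesic -/
theorem frame_size (h : FrameODE x y z u v w) (hs : u 0 ^ 2 + v 0 ^ 2 + w ^ 2 < (1 / 8) ^ 2) :
    |x 1 - x 0| ≤ 1 / 8 ∧ |y 1 - y 0| ≤ 1 / 8 ∧ |z 1 - z 0 - x 0 * (y 1 - y 0)| ≤ 1 / 4 := by
  have h1 : (1 : ℝ) ∈ Set.Icc (0 : ℝ) 1 := ⟨zero_le_one, le_rfl⟩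
  refine ⟨abs_x h hs 1 h1, abs_y h hs 1 h1, ?_⟩
  have hd : ∀ t, HasDerivAt (fun s => z s - x 0 * y s) (w + (x t - x 0) * v t) t := by
    intro t
    refine ((h.hz t).sub ((h.hy t).const_mul (x 0))).congr_deriv ?_
    ring
  have hb : ∀ t ∈ Set.Icc (0 : ℝ) 1, ‖w + (x t - x 0) * v t‖ ≤ 1 / 4 := by
    intro t ht
    rw [Real.norm_eq_abs]
    have e1 := abs_add_le w ((x t - x 0) * v t)
    rw [abs_mul] at e1
    have e2 : |x t - x 0| * |v t| ≤ 1 / 8 * (1 / 8) :=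
      mul_le_mul (abs_x h hs t ht) (abs_v h hs t) (abs_nonneg _) (by norm_num)
    have e3 := abs_w hs
    linarith
  have := mv _ _ (1 / 4) (by norm_num) hd hb 1 h1
  rw [Real.norm_eq_abs] at this
  have e : z 1 - x 0 * y 1 - (z 0 - x 0 * y 0) = z 1 - z 0 - x 0 * (y 1 - y 0) := by ring
  rwa [e] at this

/-- the complex velocity -/
noncomputable def cx (u v : ℝ → ℝ) (t : ℝ) : ℂ := (u t : ℂ) + (v t : ℂ) * Complex.I

lemma cx_norm_sq (u v : ℝ → ℝ) (t : ℝ) : ‖cx u v t‖ ^ 2 = u t ^ 2 + v t ^ 2 := by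
  unfold cx
  rw [← Complex.normSq_eq_norm_sq, Complex.normSq_add_mul_I]

lemma cx_deriv (h : FrameODE x y z u v w) (t : ℝ) :
    HasDerivAt (cx u v) (Complex.I * w * cx u v t) t := by
  have h1 := (h.hu t).ofReal_comp.add (((h.hv t).ofReal_comp).mul_const Complex.I)
  refine h1.congr_deriv ?_
  unfold cx
  push_cast
  ring_nf
  rw [Complex.I_sq]
  ring

lemma cx_norm_le (h : FrameODE x y z u v w) (hs : u 0 ^ 2 + v 0 ^ 2 + w ^ 2 < (1 / 8) ^ 2)
    (t : ℝ) : ‖cx u v t‖ ≤ 1 / 8 := by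
  have e := cx_norm_sq u v t
  rw [energy h t] at e
  have : ‖cx u v t‖ ^ 2 ≤ (1 / 8) ^ 2 := by rw [e]; nlinarith [sq_nonneg w]
  exact le_of_sq_le_sq this (by norm_num)

/-- S3b, injectivity of the exponential map of the Heisenberg group on small balls -/
theorem frame_inj (h : FrameODE x y z u v w) (h' : FrameODE x' y' z' u' v' w')
    (hs : u 0 ^ 2 + v 0 ^ 2 + w ^ 2 < (1 / 8) ^ 2) (hs' : u' 0 ^ 2 + v' 0 ^ 2 + w' ^ 2 < (1 / 8) ^ 2)
    (x0 : x 0 = x' 0) (y0 : y 0 = y' 0) (z0 : z 0 = z' 0)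
    (x1 : x 1 = x' 1) (y1 : y 1 = y' 1) (z1 : z 1 = z' 1) :
    u 0 = u' 0 ∧ v 0 = v' 0 ∧ w = w' := by
  have hone : (1 : ℝ) ∈ Set.Icc (0 : ℝ) 1 := ⟨zero_le_one, le_rfl⟩
  set D : ℝ := ‖cx u v 0 - cx u' v' 0‖ with hD
  set d : ℝ := |w - w'| with hd
  have hD0 : 0 ≤ D := norm_nonneg _
  have hd0 : 0 ≤ d := abs_nonneg _
  have hw := abs_w hs
  have hdn : ‖((w : ℂ) - w')‖ = d := by
    rw [← Complex.ofReal_sub, Complex.norm_real, Real.norm_eq_abs]
  -- the rotated difference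
  have hG : ∀ t : ℝ, HasDerivAt
      (fun s : ℝ => Complex.exp (-(Complex.I * w) * s) * (cx u v s - cx u' v' s))
      (Complex.exp (-(Complex.I * w) * t) * (Complex.I * (w - w') * cx u' v' t)) t := by
    intro t
    have e1 : HasDerivAt (fun s : ℝ => Complex.exp (-(Complex.I * w) * s))
        (Complex.exp (-(Complex.I * w) * t) * (-(Complex.I * w))) t := by
      have e0 : HasDerivAt (fun s : ℝ => -(Complex.I * w) * (s : ℂ)) (-(Complex.I * w)) t := by
        have := (Complex.ofRealCLM.hasDerivAt (x := t)).const_mul (-(Complex.I * (w : ℂ)))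
        simpa using this
      exact e0.cexp
    refine (e1.mul ((cx_deriv h t).sub (cx_deriv h' t))).congr_deriv ?_
    rw [Pi.sub_apply]
    ring
  have hexp : ∀ t : ℝ, ‖Complex.exp (-(Complex.I * w) * t)‖ = 1 := by
    intro t
    rw [Complex.norm_exp]
    have : (-(Complex.I * (w : ℂ)) * (t : ℂ)).re = 0 := by simp
    rw [this, Real.exp_zero]
  have hAB : ∀ t ∈ Set.Icc (0 : ℝ) 1, ‖cx u v t - cx u' v' t‖ ≤ D + d / 8 := by
    intro t ht
    have h1 := mv _ _ (d / 8) (by positivity) hG (fun s _ => by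
      rw [norm_mul, hexp, one_mul, norm_mul, norm_mul, Complex.norm_I, one_mul, hdn]
      have := cx_norm_le h' hs' s
      nlinarith) t ht
    have h2 : ‖cx u v t - cx u' v' t‖ =
        ‖Complex.exp (-(Complex.I * w) * t) * (cx u v t - cx u' v' t)‖ := by
      rw [norm_mul, hexp, one_mul]
    have h3 : ‖Complex.exp (-(Complex.I * w) * (0 : ℝ)) * (cx u v 0 - cx u' v' 0)‖ = D := by
      rw [norm_mul, hexp, one_mul]
    rw [h2]
    have h4 := norm_sub_norm_le (Complex.exp (-(Complex.I * w) * t) * (cx u v t - cx u' v' t))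
      (Complex.exp (-(Complex.I * w) * (0 : ℝ)) * (cx u v 0 - cx u' v' 0))
    rw [h3] at h4
    linarith
  -- derivative of the difference
  have hE : ∀ t : ℝ, HasDerivAt (fun s => cx u v s - cx u' v' s)
      (Complex.I * w * (cx u v t - cx u' v' t) + Complex.I * (w - w') * cx u' v' t) t := by
    intro t
    refine ((cx_deriv h t).sub (cx_deriv h' t)).congr_deriv ?_
    ring
  have hE' : ∀ t ∈ Set.Icc (0 : ℝ) 1,
      ‖(cx u v t - cx u' v' t) - (cx u v 0 - cx u' v' 0)‖ ≤ (D + d / 8) / 8 + d / 8 := by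
    refine mv _ _ _ (by positivity) hE fun s hs1 => ?_
    refine (norm_add_le _ _).trans ?_
    rw [norm_mul, norm_mul, norm_mul, norm_mul, Complex.norm_I, one_mul, one_mul, hdn,
      Complex.norm_real, Real.norm_eq_abs]
    have e1 : |w| * ‖cx u v s - cx u' v' s‖ ≤ 1 / 8 * (D + d / 8) :=
      mul_le_mul hw (hAB s hs1) (norm_nonneg _) (by norm_num)
    have e2 : d * ‖cx u' v' s‖ ≤ d * (1 / 8) :=
      mul_le_mul_of_nonneg_left (cx_norm_le h' hs' s) hd0
    linarith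
  -- positions
  have hX : ∀ t : ℝ, HasDerivAt (fun s => cx x y s - cx x' y' s) (cx u v t - cx u' v' t) t := by
    intro t
    have a1 := (h.hx t).ofReal_comp.add (((h.hy t).ofReal_comp).mul_const Complex.I)
    have a2 := (h'.hx t).ofReal_comp.add (((h'.hy t).ofReal_comp).mul_const Complex.I)
    exact a1.sub a2
  have hX0 : cx x y 0 - cx x' y' 0 = 0 := by unfold cx; rw [x0, y0, sub_self]
  have hX1 : cx x y 1 - cx x' y' 1 = 0 := by unfold cx; rw [x1, y1, sub_self]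
  have hXt : ∀ t ∈ Set.Icc (0 : ℝ) 1, ‖cx x y t - cx x' y' t‖ ≤ D + d / 8 := by
    intro t ht
    have := mv _ _ _ (by positivity) hX hAB t ht
    rwa [hX0, sub_zero] at this
  -- first inequality
  have hY : ∀ t : ℝ, HasDerivAt
      (fun s : ℝ => (cx x y s - cx x' y' s) - (s : ℂ) * (cx u v 0 - cx u' v' 0))
      ((cx u v t - cx u' v' t) - (cx u v 0 - cx u' v' 0)) t := by
    intro t
    have e0 : HasDerivAt (fun s : ℝ => (s : ℂ) * (cx u v 0 - cx u' v' 0))
        (cx u v 0 - cx u' v' 0) t := by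
      have := (Complex.ofRealCLM.hasDerivAt (x := t)).mul_const (cx u v 0 - cx u' v' 0)
      simpa using this
    exact (hX t).sub e0
  have hI1 : D ≤ (D + d / 8) / 8 + d / 8 := by
    have := mv _ _ _ (by positivity) hY hE' 1 hone
    simp only [hX0, hX1] at this
    have e : (0 : ℂ) - ((1 : ℝ) : ℂ) * (cx u v 0 - cx u' v' 0) -
        (0 - ((0 : ℝ) : ℂ) * (cx u v 0 - cx u' v' 0)) = -(cx u v 0 - cx u' v' 0) := by
      push_cast; ring
    rw [e, norm_neg] at this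
    exact this
  -- second inequality
  have hZ : ∀ t : ℝ, HasDerivAt (fun s : ℝ => (z s - z' s - x 0 * (y s - y' s)) - s * (w - w'))
      ((x t - x' t) * v t + (x' t - x' 0) * (v t - v' t)) t := by
    intro t
    have e1 := (((h.hz t).sub (h'.hz t)).sub (((h.hy t).sub (h'.hy t)).const_mul (x 0))).sub
      ((hasDerivAt_id t).mul_const (w - w'))
    refine e1.congr_deriv ?_
    rw [x0]
    ring
  have hre : ∀ t, |x t - x' t| ≤ ‖cx x y t - cx x' y' t‖ := by
    intro t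
    have := Complex.abs_re_le_norm (cx x y t - cx x' y' t)
    have e : (cx x y t - cx x' y' t).re = x t - x' t := by simp [cx]
    rwa [e] at this
  have him : ∀ t, |v t - v' t| ≤ ‖cx u v t - cx u' v' t‖ := by
    intro t
    have := Complex.abs_im_le_norm (cx u v t - cx u' v' t)
    have e : (cx u v t - cx u' v' t).im = v t - v' t := by simp [cx]
    rwa [e] at this
  have hI2 : d ≤ (D + d / 8) / 4 := by
    have hb : ∀ t ∈ Set.Icc (0 : ℝ) 1,
        ‖(x t - x' t) * v t + (x' t - x' 0) * (v t - v' t)‖ ≤ (D + d / 8) / 4 := by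
      intro t ht
      rw [Real.norm_eq_abs]
      refine (abs_add_le _ _).trans ?_
      rw [abs_mul, abs_mul]
      have e1 : |x t - x' t| * |v t| ≤ (D + d / 8) * (1 / 8) :=
        mul_le_mul ((hre t).trans (hXt t ht)) (abs_v h hs t) (abs_nonneg _) (by positivity)
      have e2 : |x' t - x' 0| * |v t - v' t| ≤ (1 / 8) * (D + d / 8) :=
        mul_le_mul (abs_x h' hs' t ht) ((him t).trans (hAB t ht)) (abs_nonneg _) (by norm_num)
      linarith
    have := mv _ _ _ (by positivity) hZ hb 1 hone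
    rw [Real.norm_eq_abs] at this
    have e : z 1 - z' 1 - x 0 * (y 1 - y' 1) - 1 * (w - w') -
        (z 0 - z' 0 - x 0 * (y 0 - y' 0) - 0 * (w - w')) = -(w - w') := by
      rw [z1, z0, y1, y0]; ring
    rw [e, abs_neg] at this
    exact this
  have hdz : d = 0 := by linarith
  have hDz : D = 0 := by linarith
  have hA : cx u v 0 = cx u' v' 0 := by
    rw [hD, norm_eq_zero] at hDz
    exact sub_eq_zero.mp hDz
  refine ⟨?_, ?_, ?_⟩
  · have := congrArg Complex.re hA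
    simpa [cx] using this
  · have := congrArg Complex.im hA
    simpa [cx] using this
  · rw [hd, abs_eq_zero] at hdz
    exact sub_eq_zero.mp hdz

end Pool.Agent.H793.Nil
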