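import Pool.Agent.H793.Nil.FrameDef

set_option autoImplicit false

open scoped ContDiff Topology
open MeasureTheory Matrix

namespace Pool.Agent.H793.Nil

open Pool.Agent.H85R3.RM

/-- S3a -/
theorem geodesic_frame {e : ℕ} {he : 0 < e} {γ : ℝ → (Fin 3 → ℝ)} (h : IsGeodesic (heis e he) γ) :
    FrameODE (fun t => γ t 0) (fun t => γ t 1) (fun t => γ t 2) (fun t => deriv γ t 0)
      (fun t => deriv γ t 1) (deriv γ 0 2 - γ 0 0 * deriv γ 0 1) := by
  have hs := h.smooth
  have hd1 : Differentiable ℝ γ := hs.differentiable (by simp)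
  have hs2 : ContDiff ℝ ∞ (deriv γ) := ((contDiff_infty_iff_deriv (𝕜 := ℝ)).1 hs).2
  have hd2 : Differentiable ℝ (deriv γ) := hs2.differentiable (by simp)
  have e1 : ∀ (k : Fin 3) (t : ℝ), HasDerivAt (fun t => γ t k) (deriv γ t k) t := fun k t =>
    hasDerivAt_pi.1 (hd1 t).hasDerivAt k
  have e2 : ∀ (k : Fin 3) (t : ℝ), HasDerivAt (fun t => deriv γ t k) (deriv (deriv γ) t k) t :=
    fun k t => hasDerivAt_pi.1 (hd2 t).hasDerivAt k
  have hM : (heis e he).metric = met := rfl
  have g0 : ∀ t, deriv (deriv γ) t 0 =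
      -((deriv γ t 2 - γ t 0 * deriv γ t 1) * deriv γ t 1) := by
    intro t
    have h0 := h.eqn t 0
    simp only [hM, christoffel_met, Fin.sum_univ_three] at h0
    simp [chr] at h0
    linarith
  have g1 : ∀ t, deriv (deriv γ) t 1 =
      (deriv γ t 2 - γ t 0 * deriv γ t 1) * deriv γ t 0 := by
    intro t
    have h0 := h.eqn t 1
    simp only [hM, christoffel_met, Fin.sum_univ_three] at h0
    simp [chr] at h0
    linarith
  have g2 : ∀ t, deriv (deriv γ) t 2 =
      (1 - γ t 0 ^ 2) * deriv γ t 0 * deriv γ t 1 + γ t 0 * deriv γ t 0 * deriv γ t 2 := by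
    intro t
    have h0 := h.eqn t 2
    simp only [hM, christoffel_met, Fin.sum_univ_three] at h0
    simp [chr] at h0
    linarith
  have hw : ∀ t, HasDerivAt (fun t => deriv γ t 2 - γ t 0 * deriv γ t 1) 0 t := by
    intro t
    have := (e2 2 t).sub ((e1 0 t).mul (e2 1 t))
    refine this.congr_deriv ?_
    rw [g1, g2]
    ring
  have hc : ∀ t, deriv γ t 2 - γ t 0 * deriv γ t 1 = deriv γ 0 2 - γ 0 0 * deriv γ 0 1 := by
    intro t
    exact is_const_of_deriv_eq_zero (fun s => (hw s).differentiableAt) (fun s => (hw s).deriv) t 0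
  refine ⟨fun t => e1 0 t, fun t => e1 1 t, fun t => ?_, fun t => ?_, fun t => ?_⟩
  · refine (e1 2 t).congr_deriv ?_
    rw [← hc t]
    ring
  · refine (e2 0 t).congr_deriv ?_
    rw [g0 t, hc t]
  · refine (e2 1 t).congr_deriv ?_
    rw [g1 t, hc t]

end Pool.Agent.H793.Nil
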