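import Pool.Agent.H793.Nil.ThDef

set_option autoImplicit false

open scoped ContDiff Topology
open MeasureTheory Matrix Complex

namespace Pool.Agent.H793.Nil

open Pool.Agent.H85R3.RM

/-- the coordinates as complex valued linear functionals -/
noncomputable def t2_p (i : Fin 3) : (Fin 3 → ℝ) →L[ℝ] ℂ :=
  Complex.ofRealCLM.comp (ContinuousLinearMap.proj i)

theorem t2_p_apply (i : Fin 3) (v : Fin 3 → ℝ) : t2_p i v = (v i : ℂ) := rfl

theorem t2_p_hasFDerivAt (i : Fin 3) (x : Fin 3 → ℝ) :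
    HasFDerivAt (fun y : Fin 3 → ℝ => ((y i : ℝ) : ℂ)) (t2_p i) x :=
  (t2_p i).hasFDerivAt

theorem t2_hasFDerivAt (e c k : ℕ) (he : 0 < e) (hc : 0 < c) (x : Fin 3 → ℝ) :
    ∃ (M : ℂ), HasFDerivAt (Th e c k)
      (Th e c k x • ((2 * Real.pi * I * k : ℂ) • t2_p 1 + (2 * Real.pi * I * c : ℂ) • t2_p 2 +
        (-(2 * Real.pi * c * (x 0 + k / c)) : ℂ) • t2_p 0) +
        M • (t2_p 1 + I • t2_p 0)) x := by
  have hτ : 0 < (I * (c * (e : ℂ) ^ 2)).im := by
    have h1 : (I * (c * (e : ℂ) ^ 2)).im = c * (e : ℝ) ^ 2 := by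
      have h2 : I * (c * (e : ℂ) ^ 2) = ((c * (e : ℝ) ^ 2 : ℝ) : ℂ) * I := by push_cast; ring
      rw [h2, Complex.im_ofReal_mul, Complex.I_im, mul_one]
    rw [h1]
    have : (0 : ℝ) < c := by exact_mod_cast hc
    have : (0 : ℝ) < e := by exact_mod_cast he
    positivity
  have p0 := t2_p_hasFDerivAt 0 x
  have p1 := t2_p_hasFDerivAt 1 x
  have p2 := t2_p_hasFDerivAt 2 x
  -- the first exponential
  have h1 : HasFDerivAt (fun y : Fin 3 → ℝ =>
      (2 * Real.pi * I * (k * (y 1 : ℂ) + c * (y 2 : ℂ)) : ℂ))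
      ((2 * Real.pi * I : ℂ) • ((k : ℂ) • t2_p 1 + (c : ℂ) • t2_p 2)) x :=
    ((p1.const_mul (k : ℂ)).add (p2.const_mul (c : ℂ))).const_mul _
  have h1' := h1.cexp
  -- the second exponential
  have h2 : HasFDerivAt (fun y : Fin 3 → ℝ => ((y 0 : ℂ) + k / c)) (t2_p 0) x :=
    p0.add_const _
  have h3 : HasFDerivAt (fun y : Fin 3 → ℝ => (-Real.pi * c * ((y 0 : ℂ) + k / c) ^ 2 : ℂ))
      ((-Real.pi * c : ℂ) • ((2 * ((x 0 : ℂ) + k / c)) • t2_p 0)) x := by
    have h4 : HasDerivAt (fun z : ℂ => z ^ 2) (2 * ((x 0 : ℂ) + k / c)) ((x 0 : ℂ) + k / c) := by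
      have := hasDerivAt_pow 2 ((x 0 : ℂ) + k / c)
      simpa using this
    exact (h4.comp_hasFDerivAt x h2).const_mul _
  have h3' := h3.cexp
  -- the theta function
  obtain ⟨d, hd⟩ : ∃ d, HasDerivAt (fun z => jacobiTheta₂ z (I * (c * (e : ℂ) ^ 2))) d
      (c * e * ((x 1 : ℂ) + I * ((x 0 : ℂ) + k / c))) :=
    ⟨_, (differentiableAt_jacobiTheta₂_fst _ hτ).hasDerivAt⟩
  have h5 : HasFDerivAt (fun y : Fin 3 → ℝ =>
      (c * e * ((y 1 : ℂ) + I * ((y 0 : ℂ) + k / c)) : ℂ))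
      ((c * e : ℂ) • (t2_p 1 + I • t2_p 0)) x :=
    (p1.add (h2.const_mul I)).const_mul _
  have h6 := hd.comp_hasFDerivAt x h5
  have h7 := (h1'.mul h3').mul h6
  refine ⟨(cexp (2 * Real.pi * I * (k * x 1 + c * x 2)) *
    cexp (-Real.pi * c * (x 0 + k / c) ^ 2)) * d * (c * e), ?_⟩
  have h8 : HasFDerivAt (Th e c k) _ x := h7
  refine h8.congr_fderiv ?_
  ext v
  simp only [_root_.add_apply, _root_.smul_apply, smul_eq_mul, Function.comp_apply, Th,
    Pi.mul_apply]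
  generalize cexp (2 * Real.pi * I * (k * (x 1 : ℂ) + c * (x 2 : ℂ))) = E1
  generalize cexp (-Real.pi * c * ((x 0 : ℂ) + k / c) ^ 2) = E2
  generalize jacobiTheta₂ (c * e * ((x 1 : ℂ) + I * ((x 0 : ℂ) + k / c)))
    (I * (c * (e : ℂ) ^ 2)) = T
  ring

theorem deriv_Th (e c k : ℕ) (he : 0 < e) (hc : 0 < c) (x : Fin 3 → ℝ) :
    fderiv ℝ (Th e c k) x (Pi.single 2 1) = 2 * Real.pi * I * c * Th e c k x ∧
    fderiv ℝ (Th e c k) x (Pi.single 0 1) - I * (fderiv ℝ (Th e c k) x (Pi.single 1 1) +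
      x 0 * fderiv ℝ (Th e c k) x (Pi.single 2 1)) = 0 := by
  obtain ⟨M, h⟩ := t2_hasFDerivAt e c k he hc x
  have hc0 : (c : ℂ) ≠ 0 := by exact_mod_cast hc.ne'
  have q : ∀ i j : Fin 3, t2_p i (Pi.single j 1) = if i = j then 1 else 0 := by
    intro i j
    rw [t2_p_apply, Pi.single_apply]
    split_ifs <;> simp
  rw [h.fderiv]
  simp only [_root_.add_apply, _root_.smul_apply, smul_eq_mul, q]
  have n1 : ((1 : Fin 3) = 2) = False := by decide
  have n2 : ((0 : Fin 3) = 2) = False := by decide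
  have n3 : ((1 : Fin 3) = 0) = False := by decide
  have n4 : ((2 : Fin 3) = 0) = False := by decide
  have n5 : ((2 : Fin 3) = 1) = False := by decide
  have n6 : ((0 : Fin 3) = 1) = False := by decide
  simp only [n1, n2, n3, n4, n5, n6, if_true, if_false]
  constructor
  · ring
  · have h1 : (c : ℂ) * (x 0 + k / c) = c * x 0 + k := by field_simp
    linear_combination (-(2 * Real.pi * Th e c k x)) * h1 -
      (2 * Real.pi * k * Th e c k x + 2 * Real.pi * c * x 0 * Th e c k x) * Complex.I_mul_I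

end Pool.Agent.H793.Nil
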