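import Pool.Agent.H793.Nil.ThDef

set_option autoImplicit false

open scoped ContDiff Topology
open MeasureTheory Matrix Complex

namespace Pool.Agent.H793.Nil

open Pool.Agent.H85R3.RM

section
variable {F : (Fin 3 → ℝ) → ℂ}

theorem diff_F (hF : ContDiff ℝ ∞ F) : Differentiable ℝ F :=
  hF.differentiable (by simp)

theorem diff_dF (hF : ContDiff ℝ ∞ F) : Differentiable ℝ (fderiv ℝ F) :=
  (hF.fderiv_right (m := ∞) (by simp)).differentiable (by simp)

theorem pd_re {G : (Fin 3 → ℝ) → ℂ} (hG : Differentiable ℝ G) (i : Fin 3) (x : Fin 3 → ℝ) :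
    pd i (fun y => (G y).re) x = (fderiv ℝ G x (Pi.single i 1)).re := by
  have h : HasFDerivAt (fun y => (G y).re) (Complex.reCLM.comp (fderiv ℝ G x)) x :=
    Complex.reCLM.hasFDerivAt.comp x (hG x).hasFDerivAt
  show fderiv ℝ (fun y => (G y).re) x (Pi.single i 1) = _
  rw [h.fderiv]
  rfl

theorem diff_dir (hF : ContDiff ℝ ∞ F) (v : Fin 3 → ℝ) :
    Differentiable ℝ (fun y => fderiv ℝ F y v) :=
  fun y => ((diff_dF hF) y).clm_apply (differentiableAt_const v)

theorem fderiv_dir (hF : ContDiff ℝ ∞ F) (v w : Fin 3 → ℝ) (x : Fin 3 → ℝ) :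
    fderiv ℝ (fun y => fderiv ℝ F y v) x w = fderiv ℝ (fderiv ℝ F) x w v := by
  have h := (((diff_dF hF) x).hasFDerivAt.clm_apply (hasFDerivAt_const v x)).fderiv
  rw [h]
  simp

theorem symm2 (hF : ContDiff ℝ ∞ F) (v w : Fin 3 → ℝ) (x : Fin 3 → ℝ) :
    fderiv ℝ (fderiv ℝ F) x w v = fderiv ℝ (fderiv ℝ F) x v w := by
  have h : IsSymmSndFDerivAt ℝ F x :=
    hF.contDiffAt.isSymmSndFDerivAt (by simp; exact ENat.LEInfty.out)
  exact h w v

end

/-- T3: smooth complex functions `F` with `Z F = 2 π i c F` and `(X - i Y) F = 0` are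
eigenfunctions of the Laplacian -/
theorem lap_re {F : (Fin 3 → ℝ) → ℂ} (hF : ContDiff ℝ ∞ F) (c : ℝ)
    (h2 : ∀ x, fderiv ℝ F x (Pi.single 2 1) = 2 * Real.pi * I * c * F x)
    (h01 : ∀ x, fderiv ℝ F x (Pi.single 0 1) - I * (fderiv ℝ F x (Pi.single 1 1) +
      x 0 * fderiv ℝ F x (Pi.single 2 1)) = 0) (x : Fin 3 → ℝ) :
    lap (fun y => (F y).re) x = -(2 * Real.pi * c + (2 * Real.pi * c) ^ 2) * (F x).re := by
  set G0 : (Fin 3 → ℝ) → ℂ := fun y => fderiv ℝ F y (Pi.single 0 1) with hG0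
  set G1 : (Fin 3 → ℝ) → ℂ := fun y => fderiv ℝ F y (Pi.single 1 1) with hG1
  set G2 : (Fin 3 → ℝ) → ℂ := fun y => fderiv ℝ F y (Pi.single 2 1) with hG2
  set YF : (Fin 3 → ℝ) → ℂ := fun y => G1 y + (y 0 : ℂ) * G2 y with hYF
  have d0 : Differentiable ℝ G0 := diff_dir hF _
  have d1 : Differentiable ℝ G1 := diff_dir hF _
  have d2 : Differentiable ℝ G2 := diff_dir hF _
  have dx : ∀ y, HasFDerivAt (fun y : Fin 3 → ℝ => (y 0 : ℂ))
      (Complex.ofRealCLM.comp (ContinuousLinearMap.proj 0 : (Fin 3 → ℝ) →L[ℝ] ℝ)) y := by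
    intro y
    exact Complex.ofRealCLM.hasFDerivAt.comp y (hasFDerivAt_apply 0 y)
  have dY : Differentiable ℝ YF := by
    intro y
    exact (d1 y).add ((dx y).differentiableAt.mul (d2 y))
  have e0 : G0 = fun y => I * YF y := by
    funext y
    exact sub_eq_zero.1 (h01 y)
  have e0' : YF = fun y => -I * G0 y := by
    funext y
    rw [e0]
    show YF y = -I * (I * YF y)
    rw [← mul_assoc, neg_mul, I_mul_I, neg_neg, one_mul]
  -- the first derivatives of the real part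
  have r0 : dX (fun y => (F y).re) = fun y => (G0 y).re := by
    funext y
    exact pd_re (diff_F hF) 0 y
  have r1 : Pool.Agent.H793.Nil.dY (fun y => (F y).re) = fun y => (YF y).re := by
    funext y
    unfold Pool.Agent.H793.Nil.dY
    rw [pd_re (diff_F hF) 1 y, pd_re (diff_F hF) 2 y]
    simp [hYF, hG1, hG2]
  have r2 : dZ (fun y => (F y).re) = fun y => (G2 y).re := by
    funext y
    exact pd_re (diff_F hF) 2 y
  -- the second derivatives
  have s0 : dX (fun y => (G0 y).re) x = (fderiv ℝ G0 x (Pi.single 0 1)).re := pd_re d0 0 x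
  have s1 : Pool.Agent.H793.Nil.dY (fun y => (YF y).re) x =
      (fderiv ℝ YF x (Pi.single 1 1) + x 0 * fderiv ℝ YF x (Pi.single 2 1)).re := by
    unfold Pool.Agent.H793.Nil.dY
    rw [pd_re dY 1 x, pd_re dY 2 x]
    simp
  have s2 : dZ (fun y => (G2 y).re) x = (fderiv ℝ G2 x (Pi.single 2 1)).re := pd_re d2 2 x
  have t0 : fderiv ℝ G0 x (Pi.single 0 1) = I * (fderiv ℝ (fderiv ℝ F) x (Pi.single 0 1)
      (Pi.single 1 1) + (G2 x + x 0 * fderiv ℝ (fderiv ℝ F) x (Pi.single 0 1)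
      (Pi.single 2 1))) := by
    have hY : HasFDerivAt YF (fderiv ℝ G1 x + ((x 0 : ℂ) • fderiv ℝ G2 x +
        (Complex.ofRealCLM.comp (ContinuousLinearMap.proj 0 : (Fin 3 → ℝ) →L[ℝ] ℝ)).smulRight
          (G2 x))) x := by
      refine (d1 x).hasFDerivAt.add ?_
      exact ((dx x).mul (d2 x).hasFDerivAt).congr_fderiv (by ext v; simp [mul_comm])
    have h0 : fderiv ℝ G0 x = I • fderiv ℝ YF x := by
      rw [e0]
      exact (hY.differentiableAt.hasFDerivAt.const_mul I).fderiv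
    rw [h0, hY.fderiv]
    have q1 := fderiv_dir hF (Pi.single 1 1) (Pi.single 0 1) x
    have q2 := fderiv_dir hF (Pi.single 2 1) (Pi.single 0 1) x
    simp only [_root_.smul_apply, _root_.add_apply,
      ContinuousLinearMap.smulRight_apply, ContinuousLinearMap.comp_apply,
      ContinuousLinearMap.proj_apply, Pi.single_eq_same, smul_eq_mul]
    rw [q1, q2]
    simp
    ring
  have t1 : ∀ v, fderiv ℝ YF x v = -I * fderiv ℝ (fderiv ℝ F) x v (Pi.single 0 1) := by
    intro v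
    have h0 : fderiv ℝ YF x = (-I) • fderiv ℝ G0 x := by
      rw [e0']
      exact ((d0 x).hasFDerivAt.const_mul (-I)).fderiv
    rw [h0]
    simp only [_root_.smul_apply, smul_eq_mul]
    rw [fderiv_dir hF]
  have t2 : fderiv ℝ G2 x (Pi.single 2 1) =
      (2 * Real.pi * I * c) * ((2 * Real.pi * I * c) * F x) := by
    have hG : G2 = fun y => (2 * Real.pi * I * c) * F y := by
      funext y
      exact h2 y
    have h0 : fderiv ℝ G2 x = (2 * Real.pi * I * c : ℂ) • fderiv ℝ F x := by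
      rw [hG]
      exact (((diff_F hF) x).hasFDerivAt.const_mul _).fderiv
    rw [h0]
    simp only [_root_.smul_apply, smul_eq_mul]
    rw [h2 x]
  have hg2 : G2 x = 2 * Real.pi * I * c * F x := h2 x
  unfold lap
  rw [r0, r1, r2, s0, s1, s2, ← Complex.add_re, ← Complex.add_re, t0, t1, t1, t2,
    symm2 hF (Pi.single 1 1) (Pi.single 0 1), symm2 hF (Pi.single 2 1) (Pi.single 0 1), hg2]
  have hI : I * I = -1 := I_mul_I
  have key : I * (fderiv ℝ (fderiv ℝ F) x (Pi.single 1 1) (Pi.single 0 1) +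
      (2 * Real.pi * I * c * F x + x 0 * fderiv ℝ (fderiv ℝ F) x (Pi.single 2 1)
        (Pi.single 0 1))) +
      (-I * fderiv ℝ (fderiv ℝ F) x (Pi.single 1 1) (Pi.single 0 1) +
        x 0 * (-I * fderiv ℝ (fderiv ℝ F) x (Pi.single 2 1) (Pi.single 0 1))) +
      2 * Real.pi * I * c * (2 * Real.pi * I * c * F x) =
      ((-(2 * Real.pi * c + (2 * Real.pi * c) ^ 2) : ℝ) : ℂ) * F x := by
    push_cast
    linear_combination (2 * Real.pi * c * F x + (2 * Real.pi * c) ^ 2 * F x) * hI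
  rw [key, Complex.re_ofReal_mul]

end Pool.Agent.H793.Nil
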