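import Pool.Agent.H793.Nil.T1
import Pool.Agent.H793.Nil.T2
import Pool.Agent.H793.Nil.T3

/-! # T4, T5, T6: linear independence of the theta functions, the eigenspace -/

set_option autoImplicit false

open scoped ContDiff Topology
open MeasureTheory Matrix Complex

namespace Pool.Agent.H793.Nil

open Pool.Agent.H85R3.RM

/-- T4: translation by `1 / (c e)` in `y` -/
theorem Th_shift (e c k : ℕ) (he : 0 < e) (hc : 0 < c) (x : Fin 3 → ℝ) :
    Th e c k (lt 0 (1 / (c * e)) 0 x) = cexp (2 * Real.pi * I * k / (c * e)) * Th e c k x := by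
  have he' : (e : ℂ) ≠ 0 := by exact_mod_cast he.ne'
  have hc' : (c : ℂ) ≠ 0 := by exact_mod_cast hc.ne'
  have h0 : lt 0 (1 / (c * e)) 0 x 0 = x 0 := by simp [lt]
  have h1 : lt 0 (1 / (c * e)) 0 x 1 = x 1 + 1 / (c * e) := by simp [lt]
  have h2 : lt 0 (1 / (c * e)) 0 x 2 = x 2 := by simp [lt]
  unfold Th
  rw [h0, h1, h2]
  have a1 : cexp (2 * Real.pi * I * (k * ((x 1 + 1 / (c * e) : ℝ) : ℂ) + c * x 2)) =
      cexp (2 * Real.pi * I * k / (c * e)) * cexp (2 * Real.pi * I * (k * x 1 + c * x 2)) := by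
    rw [← Complex.exp_add]
    congr 1
    push_cast
    field_simp
    ring
  have a2 : (c : ℂ) * e * (((x 1 + 1 / (c * e) : ℝ) : ℂ) + I * (x 0 + k / c)) =
      c * e * (x 1 + I * (x 0 + k / c)) + 1 := by
    push_cast
    field_simp
    ring
  rw [a1, a2, jacobiTheta₂_add_left]
  ring

/-- T4: translation by `1 / (4 c)` in `z` -/
theorem Th_quarter (e c k : ℕ) (_he : 0 < e) (hc : 0 < c) (x : Fin 3 → ℝ) :
    Th e c k (lt 0 0 (1 / (4 * c)) x) = I * Th e c k x := by
  have hc' : (c : ℂ) ≠ 0 := by exact_mod_cast hc.ne'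
  have h0 : lt 0 0 (1 / (4 * c)) x 0 = x 0 := by simp [lt]
  have h1 : lt 0 0 (1 / (4 * c)) x 1 = x 1 := by simp [lt]
  have h2 : lt 0 0 (1 / (4 * c)) x 2 = x 2 + 1 / (4 * c) := by simp [lt]
  unfold Th
  rw [h0, h1, h2]
  have a1 : cexp (2 * Real.pi * I * (k * x 1 + c * ((x 2 + 1 / (4 * c) : ℝ) : ℂ))) =
      I * cexp (2 * Real.pi * I * (k * x 1 + c * x 2)) := by
    have a2 : (2 * Real.pi * I * (k * x 1 + c * ((x 2 + 1 / (4 * c) : ℝ) : ℂ)) : ℂ) =
        Real.pi / 2 * I + 2 * Real.pi * I * (k * x 1 + c * x 2) := by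
      push_cast
      field_simp
      ring
    rw [a2, Complex.exp_add, Complex.exp_pi_div_two_mul_I]
  rw [a1]
  ring

/-- T4 -/
theorem Th_ne_zero (e c k : ℕ) (he : 0 < e) (hc : 0 < c) : Th e c k ≠ 0 := by
  intro h
  have h1 := congrFun h ![-(k / c : ℝ), 0, 0]
  have hc' : (c : ℂ) ≠ 0 := by exact_mod_cast hc.ne'
  have he0 : (0 : ℝ) < e := by exact_mod_cast he
  have hc0 : (0 : ℝ) < c := by exact_mod_cast hc
  unfold Th at h1
  have e0 : ((![-(k / c : ℝ), 0, 0] : Fin 3 → ℝ) 0) = -(k / c : ℝ) := rfl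
  have e1 : ((![-(k / c : ℝ), 0, 0] : Fin 3 → ℝ) 1) = 0 := rfl
  rw [e0, e1] at h1
  have e3 : ((c : ℂ) * e * (((0 : ℝ) : ℂ) + I * (((-(k / c : ℝ) : ℝ) : ℂ) + k / c))) = 0 := by
    push_cast
    ring
  rw [e3] at h1
  have h2 : jacobiTheta₂ 0 (I * (c * e ^ 2)) = 0 := by
    have h3 : (0 : (Fin 3 → ℝ) → ℂ) ![-(k / c : ℝ), 0, 0] = 0 := rfl
    rw [h3] at h1
    rcases mul_eq_zero.1 h1 with h4 | h4
    · exact absurd h4 (mul_ne_zero (Complex.exp_ne_zero _) (Complex.exp_ne_zero _))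
    · exact h4
  have him : 0 < (I * (c * e ^ 2) : ℂ).im := by
    have : (I * (c * e ^ 2) : ℂ) = ((c * e ^ 2 : ℝ) : ℂ) * I := by
      push_cast
      ring
    rw [this, Complex.mul_I_im, Complex.ofReal_re]
    positivity
  have h4 := hasSum_jacobiTheta₂_term 0 him
  rw [h2] at h4
  have h5 := Complex.reCLM.hasSum h4
  have h6 : ∀ m : ℤ, 0 < Complex.reCLM (jacobiTheta₂_term m 0 (I * (c * e ^ 2))) := by
    intro m
    have h7 : jacobiTheta₂_term m 0 (I * (c * e ^ 2)) =
        ((Real.exp (-(Real.pi * m ^ 2 * (c * e ^ 2))) : ℝ) : ℂ) := by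
      unfold jacobiTheta₂_term
      rw [Complex.ofReal_exp]
      congr 1
      push_cast
      have hI : (I : ℂ) * I = -1 := Complex.I_mul_I
      linear_combination (Real.pi * m ^ 2 * (c * e ^ 2) : ℂ) * hI
    rw [h7]
    exact Real.exp_pos _
  have h8 := hasSum_le (f := fun _ : ℤ => (0 : ℝ)) (fun m => (h6 m).le) hasSum_zero h5
  have h9 := le_hasSum h5 0 (fun m _ => (h6 m).le)
  have h10 := h6 0
  have h11 : Complex.reCLM (0 : ℂ) = 0 := map_zero _
  rw [h11] at h9
  exact absurd h10 (not_lt.2 h9)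

/-- the theta functions are linearly independent over `ℂ` -/
theorem linInd_C (e c : ℕ) (he : 0 < e) (hc : 0 < c) :
    LinearIndependent ℂ (fun k : Fin (c * e) => Th e c k) := by
  have hce : c * e ≠ 0 := (Nat.mul_pos hc he).ne'
  have hprim := Complex.isPrimitiveRoot_exp (c * e) hce
  have hμ : ∀ k : ℕ, cexp (2 * Real.pi * I * k / (c * e)) =
      cexp (2 * Real.pi * I / ((c * e : ℕ) : ℂ)) ^ k := by
    intro k
    rw [← Complex.exp_nat_mul]
    congr 1
    push_cast
    ring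
  refine Module.End.eigenvectors_linearIndependent'
    (LinearMap.funLeft ℂ ℂ (lt 0 (1 / (c * e)) 0))
    (fun k : Fin (c * e) => cexp (2 * Real.pi * I * (k : ℕ) / (c * e))) ?_ _ ?_
  · intro k k' h
    have h1 : cexp (2 * Real.pi * I * (k : ℕ) / (c * e)) =
        cexp (2 * Real.pi * I * (k' : ℕ) / (c * e)) := h
    rw [hμ, hμ] at h1
    exact Fin.ext (hprim.pow_inj k.2 k'.2 h1)
  · intro k
    refine ⟨Module.End.mem_eigenspace_iff.2 ?_, Th_ne_zero e c k he hc⟩
    funext x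
    exact Th_shift e c k he hc x

/-- T5: the real parts of the theta functions are linearly independent -/
theorem linInd_Th (e c : ℕ) (he : 0 < e) (hc : 0 < c) :
    LinearIndependent ℝ (fun (k : Fin (c * e)) (x : Fin 3 → ℝ) => (Th e c k x).re) := by
  rw [Fintype.linearIndependent_iff]
  intro g hg k
  have h1 : ∀ x, (∑ k : Fin (c * e), (g k : ℂ) * Th e c k x).re = 0 := by
    intro x
    have h2 := congrFun hg x
    rw [Finset.sum_apply] at h2
    rw [Complex.re_sum]
    have h3 : ∀ k : Fin (c * e), ((g k : ℂ) * Th e c k x).re = g k * (Th e c k x).re :=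
      fun k => Complex.re_ofReal_mul _ _
    rw [Finset.sum_congr rfl fun k _ => h3 k]
    exact h2
  have h2 : ∀ x, (∑ k : Fin (c * e), (g k : ℂ) * Th e c k x) = 0 := by
    intro x
    have h3 := h1 (lt 0 0 (1 / (4 * c)) x)
    have h4 : (∑ k : Fin (c * e), (g k : ℂ) * Th e c k (lt 0 0 (1 / (4 * c)) x)) =
        I * ∑ k : Fin (c * e), (g k : ℂ) * Th e c k x := by
      rw [Finset.mul_sum]
      refine Finset.sum_congr rfl fun k _ => ?_
      rw [Th_quarter e c k he hc]
      ring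
    rw [h4, Complex.I_mul_re] at h3
    exact Complex.ext (h1 x) (by rw [Complex.zero_im]; linarith)
  have h3 := Fintype.linearIndependent_iff.1 (linInd_C e c he hc) (fun k => (g k : ℂ)) (by
    funext x
    rw [Finset.sum_apply]
    exact h2 x) k
  exact_mod_cast h3

/-- T6: the eigenspace -/
theorem exists_eigenspace (e c : ℕ) (he : 0 < e) (hc : 0 < c) :
    ∃ V : Submodule ℝ ((Fin 3 → ℝ) → ℝ), Module.finrank ℝ V = c * e ∧ V ≤ Inv e ∧
      ∀ f ∈ V, ∀ x, lap f x = -(2 * Real.pi * c + (2 * Real.pi * c) ^ 2) * f x := by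
  refine ⟨Submodule.span ℝ (Set.range fun (k : Fin (c * e)) (x : Fin 3 → ℝ) => (Th e c k x).re),
    ?_, ?_, ?_⟩
  · rw [finrank_span_eq_card (linInd_Th e c he hc), Fintype.card_fin]
  · rw [Submodule.span_le]
    rintro _ ⟨k, rfl⟩
    refine ⟨?_, fun g x => ?_⟩
    · exact Complex.reCLM.contDiff.comp (contDiff_Th e c k he hc)
    · show (Th e c k (dact g x)).re = (Th e c k x).re
      rw [Th_dact e c k he hc]
  · intro f hf x
    obtain ⟨a, rfl⟩ := (Submodule.mem_span_range_iff_exists_fun ℝ).1 hf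
    obtain ⟨F, hF⟩ : ∃ F : (Fin 3 → ℝ) → ℂ,
      F = fun x => ∑ k : Fin (c * e), (a k : ℂ) * Th e c k x := ⟨_, rfl⟩
    have hT : ∀ k : Fin (c * e), ContDiff ℝ ∞ (Th e c k) := fun k => contDiff_Th e c k he hc
    have hFc : ContDiff ℝ ∞ F := by
      rw [hF]
      exact ContDiff.sum fun k _ => contDiff_const.mul (hT k)
    have hfd : ∀ x v, fderiv ℝ F x v = ∑ k : Fin (c * e), (a k : ℂ) * fderiv ℝ (Th e c k) x v := by
      intro x v
      have hd : ∀ k : Fin (c * e), DifferentiableAt ℝ (Th e c k) x := fun k =>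
        (hT k).contDiffAt.differentiableAt (by simp)
      rw [hF, fderiv_fun_sum (fun k _ => (hd k).const_mul _), _root_.sum_apply]
      refine Finset.sum_congr rfl fun k _ => ?_
      rw [fderiv_const_mul (hd k)]
      rfl
    have hre : (∑ i, a i • fun x : Fin 3 → ℝ => (Th e c i x).re) = fun y => (F y).re := by
      funext y
      rw [Finset.sum_apply, hF]
      show _ = (∑ k : Fin (c * e), (a k : ℂ) * Th e c k y).re
      rw [Complex.re_sum]
      refine Finset.sum_congr rfl fun k _ => ?_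
      rw [Complex.re_ofReal_mul]
      rfl
    rw [hre]
    refine lap_re hFc c (fun y => ?_) (fun y => ?_) x
    · rw [hfd, hF, Finset.mul_sum]
      refine Finset.sum_congr rfl fun k _ => ?_
      rw [(deriv_Th e c k he hc y).1]
      push_cast
      ring
    · rw [hfd, hfd, hfd, Finset.mul_sum, ← Finset.sum_add_distrib, Finset.mul_sum,
        ← Finset.sum_sub_distrib]
      refine Finset.sum_eq_zero fun k _ => ?_
      have h := (deriv_Th e c k he hc y).2
      linear_combination (a k : ℂ) * h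

end Pool.Agent.H793.Nil
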