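import Pool.Agent.H793.Nil.G1

/-!
# Left invariant fields and Green's formula on the Heisenberg nilmanifold
(tasks G2, G3 of helper793; helper553)
-/

set_option autoImplicit false

open scoped ContDiff Topology
open MeasureTheory Matrix

namespace Pool.Agent.H793.Nil

open Pool.Agent.H85R3.RM

theorem pd_lt {f : (Fin 3 → ℝ) → ℝ} (hf : ContDiff ℝ ∞ f) (a b c : ℝ) (x : Fin 3 → ℝ)
    (i : Fin 3) : pd i (fun y => f (lt a b c y)) x =
      fderiv ℝ f (lt a b c x) (fderiv ℝ (lt a b c) x (Pi.single i 1)) := by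
  have h1 : DifferentiableAt ℝ f (lt a b c x) := (hf.differentiable (by simp)).differentiableAt
  have h2 : DifferentiableAt ℝ (lt a b c) x :=
    ((contDiff_lt a b c).differentiable (by simp)).differentiableAt
  have h3 := fderiv_comp x h1 h2
  show fderiv ℝ (f ∘ lt a b c) x (Pi.single i 1) = _
  rw [h3]
  rfl

theorem lt_zero_coord (a b c : ℝ) (x : Fin 3 → ℝ) : lt a b c x 0 = x 0 + a := by
  simp [lt]

theorem pd0_lt {f : (Fin 3 → ℝ) → ℝ} (hf : ContDiff ℝ ∞ f) (a b c : ℝ) (x : Fin 3 → ℝ) :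
    pd 0 (fun y => f (lt a b c y)) x = pd 0 f (lt a b c x) := by
  rw [pd_lt hf, fderiv_lt]
  show _ = fderiv ℝ f (lt a b c x) (Pi.single 0 1)
  congr 1
  ext i
  fin_cases i <;> simp

theorem pd1_lt {f : (Fin 3 → ℝ) → ℝ} (hf : ContDiff ℝ ∞ f) (a b c : ℝ) (x : Fin 3 → ℝ) :
    pd 1 (fun y => f (lt a b c y)) x = pd 1 f (lt a b c x) + a * pd 2 f (lt a b c x) := by
  rw [pd_lt hf, fderiv_lt]
  show _ = fderiv ℝ f (lt a b c x) (Pi.single 1 1) +
    a * fderiv ℝ f (lt a b c x) (Pi.single 2 1)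
  have h1 : a * fderiv ℝ f (lt a b c x) (Pi.single 2 1) =
      fderiv ℝ f (lt a b c x) (a • Pi.single 2 1) := by
    rw [map_smul, smul_eq_mul]
  rw [h1, ← map_add]
  congr 1
  ext i
  fin_cases i <;> simp

theorem pd2_lt {f : (Fin 3 → ℝ) → ℝ} (hf : ContDiff ℝ ∞ f) (a b c : ℝ) (x : Fin 3 → ℝ) :
    pd 2 (fun y => f (lt a b c y)) x = pd 2 f (lt a b c x) := by
  rw [pd_lt hf, fderiv_lt]
  show _ = fderiv ℝ f (lt a b c x) (Pi.single 2 1)
  congr 1
  ext i
  fin_cases i <;> simp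

/-- G2 -/
theorem dX_lt {f : (Fin 3 → ℝ) → ℝ} (hf : ContDiff ℝ ∞ f) (a b c : ℝ) (x : Fin 3 → ℝ) :
    dX (fun y => f (lt a b c y)) x = dX f (lt a b c x) := pd0_lt hf a b c x

/-- G2 -/
theorem dY_lt {f : (Fin 3 → ℝ) → ℝ} (hf : ContDiff ℝ ∞ f) (a b c : ℝ) (x : Fin 3 → ℝ) :
    dY (fun y => f (lt a b c y)) x = dY f (lt a b c x) := by
  unfold dY
  rw [pd1_lt hf, pd2_lt hf, lt_zero_coord]
  ring

/-- G2 -/
theorem dZ_lt {f : (Fin 3 → ℝ) → ℝ} (hf : ContDiff ℝ ∞ f) (a b c : ℝ) (x : Fin 3 → ℝ) :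
    dZ (fun y => f (lt a b c y)) x = dZ f (lt a b c x) := pd2_lt hf a b c x

theorem contDiff_pd {f : (Fin 3 → ℝ) → ℝ} (hf : ContDiff ℝ ∞ f) (i : Fin 3) :
    ContDiff ℝ ∞ (pd i f) := by
  have h1 : ContDiff ℝ ∞ (fun x => fderiv ℝ f x) := hf.fderiv_right (by simp)
  exact h1.clm_apply contDiff_const

theorem contDiff_dY {f : (Fin 3 → ℝ) → ℝ} (hf : ContDiff ℝ ∞ f) : ContDiff ℝ ∞ (dY f) := by
  have h0 : ContDiff ℝ ∞ (fun x : Fin 3 → ℝ => x 0) := contDiff_apply ℝ ℝ (0 : Fin 3)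
  exact (contDiff_pd hf 1).add (h0.mul (contDiff_pd hf 2))

theorem comp_eq {e : ℕ} {f : (Fin 3 → ℝ) → ℝ} (hf : f ∈ Inv e) (g : Dk e) :
    (fun y => f (lt (e * g.a) g.b g.c y)) = f := by
  funext y
  exact hf.2 g y

/-- G2: the left invariant fields preserve the invariant functions -/
theorem dX_mem {e : ℕ} {f : (Fin 3 → ℝ) → ℝ} (hf : f ∈ Inv e) : dX f ∈ Inv e := by
  refine ⟨contDiff_pd hf.1 0, fun g x => ?_⟩
  have h1 := dX_lt hf.1 (e * g.a) g.b g.c x
  rw [comp_eq hf g] at h1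
  exact h1.symm

/-- G2 -/
theorem dY_mem {e : ℕ} {f : (Fin 3 → ℝ) → ℝ} (hf : f ∈ Inv e) : dY f ∈ Inv e := by
  refine ⟨contDiff_dY hf.1, fun g x => ?_⟩
  have h1 := dY_lt hf.1 (e * g.a) g.b g.c x
  rw [comp_eq hf g] at h1
  exact h1.symm

/-- G2 -/
theorem dZ_mem {e : ℕ} {f : (Fin 3 → ℝ) → ℝ} (hf : f ∈ Inv e) : dZ f ∈ Inv e := by
  refine ⟨contDiff_pd hf.1 2, fun g x => ?_⟩
  have h1 := dZ_lt hf.1 (e * g.a) g.b g.c x
  rw [comp_eq hf g] at h1
  exact h1.symm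

theorem mul_mem {e : ℕ} {f w : (Fin 3 → ℝ) → ℝ} (hw : w ∈ Inv e) (hf : f ∈ Inv e) :
    (fun x => w x * f x) ∈ Inv e :=
  ⟨hw.1.mul hf.1, fun g x => by
    show w (dact g x) * f (dact g x) = w x * f x
    rw [hw.2, hf.2]⟩

theorem pd_mul {f w : (Fin 3 → ℝ) → ℝ} (hw : ContDiff ℝ ∞ w) (hf : ContDiff ℝ ∞ f) (i : Fin 3)
    (x : Fin 3 → ℝ) : pd i (fun y => w y * f y) x = pd i w x * f x + w x * pd i f x := by
  have h1 : DifferentiableAt ℝ w x := (hw.differentiable (by simp)).differentiableAt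
  have h2 : DifferentiableAt ℝ f x := (hf.differentiable (by simp)).differentiableAt
  show fderiv ℝ (fun y => w y * f y) x (Pi.single i 1) = _
  rw [fderiv_fun_mul h1 h2]
  show w x * fderiv ℝ f x (Pi.single i 1) + f x * fderiv ℝ w x (Pi.single i 1) =
    fderiv ℝ w x (Pi.single i 1) * f x + w x * fderiv ℝ f x (Pi.single i 1)
  ring

theorem dX_mul {f w : (Fin 3 → ℝ) → ℝ} (hw : ContDiff ℝ ∞ w) (hf : ContDiff ℝ ∞ f)
    (x : Fin 3 → ℝ) : dX (fun y => w y * f y) x = dX w x * f x + w x * dX f x :=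
  pd_mul hw hf 0 x

theorem dY_mul {f w : (Fin 3 → ℝ) → ℝ} (hw : ContDiff ℝ ∞ w) (hf : ContDiff ℝ ∞ f)
    (x : Fin 3 → ℝ) : dY (fun y => w y * f y) x = dY w x * f x + w x * dY f x := by
  unfold dY
  rw [pd_mul hw hf, pd_mul hw hf]
  ring

theorem dZ_mul {f w : (Fin 3 → ℝ) → ℝ} (hw : ContDiff ℝ ∞ w) (hf : ContDiff ℝ ∞ f)
    (x : Fin 3 → ℝ) : dZ (fun y => w y * f y) x = dZ w x * f x + w x * dZ f x :=
  pd_mul hw hf 2 x

theorem integrable {e : ℕ} {F : (Fin 3 → ℝ) → ℝ} (hF : Continuous F) :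
    IntegrableOn F (dfund e) := by
  have h1 : dfund e ⊆ Set.Icc (0 : Fin 3 → ℝ) ![(e : ℝ), 1, 1] := by
    rintro x ⟨⟨h1, h2⟩, ⟨h3, h4⟩, h5, h6⟩
    constructor
    · intro i
      fin_cases i
      · exact h1
      · exact h3
      · exact h5
    · intro i
      fin_cases i
      · exact h2.le
      · exact h4.le
      · exact h6.le
  exact (hF.continuousOn.integrableOn_compact isCompact_Icc).mono_set h1

/-- G3: Green's formula -/
theorem green {e : ℕ} (he : 0 < e) {w f : (Fin 3 → ℝ) → ℝ} (hw : w ∈ Inv e) (hf : f ∈ Inv e)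
    {Λ : ℝ} (h : ∀ x, lap f x = -Λ * f x) :
    ∫ x in dfund e, (dX w x * dX f x + dY w x * dY f x + dZ w x * dZ f x) =
      Λ * ∫ x in dfund e, w x * f x := by
  have hXf := dX_mem hf
  have hYf := dY_mem hf
  have hZf := dZ_mem hf
  have h1 := integral_dX he (mul_mem hw hXf)
  have h2 := integral_dY he (mul_mem hw hYf)
  have h3 := integral_dZ he (mul_mem hw hZf)
  have c1 : Continuous (dX (fun x => w x * dX f x)) := (dX_mem (mul_mem hw hXf)).1.continuous
  have c2 : Continuous (dY (fun x => w x * dY f x)) := (dY_mem (mul_mem hw hYf)).1.continuous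
  have c3 : Continuous (dZ (fun x => w x * dZ f x)) := (dZ_mem (mul_mem hw hZf)).1.continuous
  have c4 : Continuous (fun x => w x * f x) := hw.1.continuous.mul hf.1.continuous
  have h4 : ∀ x, dX w x * dX f x + dY w x * dY f x + dZ w x * dZ f x =
      (dX (fun y => w y * dX f y) x + dY (fun y => w y * dY f y) x +
        dZ (fun y => w y * dZ f y) x) + Λ * (w x * f x) := by
    intro x
    have h5 := h x
    unfold lap at h5
    rw [dX_mul hw.1 hXf.1, dY_mul hw.1 hYf.1, dZ_mul hw.1 hZf.1]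
    linear_combination (-(w x)) * h5
  simp_rw [h4]
  have i1 : IntegrableOn (fun x => dX (fun y => w y * dX f y) x) (dfund e) := integrable c1
  have i2 : IntegrableOn (fun x => dY (fun y => w y * dY f y) x) (dfund e) := integrable c2
  have i3 : IntegrableOn (fun x => dZ (fun y => w y * dZ f y) x) (dfund e) := integrable c3
  have i4 : IntegrableOn (fun x => Λ * (w x * f x)) (dfund e) := (integrable c4).const_mul Λ
  have i12 : IntegrableOn (fun x => dX (fun y => w y * dX f y) x +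
      dY (fun y => w y * dY f y) x) (dfund e) := Integrable.add i1 i2
  have i123 : IntegrableOn (fun x => dX (fun y => w y * dX f y) x +
      dY (fun y => w y * dY f y) x + dZ (fun y => w y * dZ f y) x) (dfund e) :=
    Integrable.add i12 i3
  have e1 := integral_add i123 i4
  have e2 := integral_add i12 i3
  have e3 := integral_add i1 i2
  have e4 : ∫ x in dfund e, Λ * (w x * f x) = Λ * ∫ x in dfund e, w x * f x :=
    integral_const_mul _ _
  linarith

end Pool.Agent.H793.Nil
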