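import Pool.Agent.H793.Nil.S5Green
import Pool.Agent.H793.Nil.C1
import Pool.Agent.H793.Nil.C3

set_option autoImplicit false

open scoped ContDiff Topology ENNReal
open MeasureTheory Matrix

namespace Pool.Agent.H793.Nil

open Pool.Agent.H85R3.RM

theorem c4_cell_integrable {N : ℕ} (i : Fin 3 → Fin N) {g : (Fin 3 → ℝ) → ℝ}
    (hg : Continuous g) : IntegrableOn g (cell N i) := by
  have h1 : cell N i ⊆ Set.Icc (fun m : Fin 3 => ((i m : ℕ) : ℝ) / N)
      (fun m : Fin 3 => (((i m : ℕ) : ℝ) + 1) / N) := by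
    intro x hx
    exact ⟨fun m => (hx m).1, fun m => (hx m).2.le⟩
  exact (hg.continuousOn.integrableOn_compact isCompact_Icc).mono_set h1

theorem c4_inv_lt {e : ℕ} {f : (Fin 3 → ℝ) → ℝ} (hf : f ∈ Inv e) (x : Fin 3 → ℝ) :
    f (lt 0 0 1 x) = f x := by
  have h := hf.2 ⟨0, 0, 1⟩ x
  simpa [dact] using h

/-- The map that sends a function to its integrals over the small cells. -/
noncomputable def c4_map {e N : ℕ} (W : Submodule ℝ ((Fin 3 → ℝ) → ℝ)) (hW : W ≤ Inv e) :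
    W →ₗ[ℝ] (Fin e × (Fin 3 → Fin N) → ℝ) where
  toFun := fun f p => ∫ x in cell N p.2, (f : (Fin 3 → ℝ) → ℝ) (lt (p.1 : ℕ) 0 0 x)
  map_add' := fun f g => by
    have hf : Continuous (f : (Fin 3 → ℝ) → ℝ) := (hW f.2).1.continuous
    have hg : Continuous (g : (Fin 3 → ℝ) → ℝ) := (hW g.2).1.continuous
    funext p
    have hl : Continuous (lt ((p.1 : ℕ) : ℝ) 0 0) := (contDiff_lt _ _ _).continuous
    exact integral_add (c4_cell_integrable p.2 (hf.comp hl)) (c4_cell_integrable p.2 (hg.comp hl))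
  map_smul' := fun c f => by
    funext p
    exact integral_const_mul c _

/-- C4: the counting bound -/
theorem count {e : ℕ} (he : 0 < e) {N : ℕ} (hN : 0 < N) (W : Submodule ℝ ((Fin 3 → ℝ) → ℝ))
    (hW : W ≤ Inv e) (hdim : e * N ^ 3 < Module.finrank ℝ W) :
    ∃ f ∈ W, f ≠ 0 ∧ (N : ℝ) ^ 2 * ∫ x in dfund e, f x ^ 2 ≤
      12 * ∫ x in dfund e, (dX f x ^ 2 + dY f x ^ 2 + dZ f x ^ 2) := by
  have hfd : FiniteDimensional ℝ W := Module.finite_of_finrank_pos (by omega)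
  have hker : LinearMap.ker (c4_map (N := N) W hW) ≠ ⊥ := by
    apply LinearMap.ker_ne_bot_of_finrank_lt
    rw [Module.finrank_fintype_fun_eq_card]
    simpa using hdim
  obtain ⟨f, hfk, hf0⟩ := Submodule.exists_mem_ne_zero_of_ne_bot hker
  have hfi := hW f.2
  have hT : ∀ j < e, ∀ i : Fin 3 → Fin N,
      ∫ x in cell N i, (f : (Fin 3 → ℝ) → ℝ) (lt (j : ℕ) 0 0 x) = 0 := by
    intro j hj i
    have h1 : c4_map (N := N) W hW f = 0 := hfk
    exact congrFun h1 (⟨j, hj⟩, i)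
  obtain ⟨f, hfW⟩ := f
  simp only at hfi hT
  have hf1 : ContDiff ℝ ∞ f := hfi.1
  have hX := dX_mem hfi
  have hY := dY_mem hfi
  have hZ := dZ_mem hfi
  have hcX : Continuous (dX f) := hX.1.continuous
  have hcY : Continuous (dY f) := hY.1.continuous
  have hcZ : Continuous (dZ f) := hZ.1.continuous
  have hcf : Continuous f := hf1.continuous
  refine ⟨f, hfW, fun h => hf0 (Subtype.ext h), ?_⟩
  have e1 : ∫ x in dfund e, f x ^ 2 =
      ∑ j ∈ Finset.range e, ∑ i : Fin 3 → Fin N, ∫ x in cell N i, f (lt j 0 0 x) ^ 2 := by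
    rw [integral_slabs he (φ := fun x => f x ^ 2) (hcf.pow 2)
      (fun x => by rw [c4_inv_lt hfi])]
    refine Finset.sum_congr rfl fun j _ => ?_
    exact integral_cells hN (φ := fun x => f (lt j 0 0 x) ^ 2)
      ((hcf.comp (contDiff_lt _ _ _).continuous).pow 2)
  have e2 : ∫ x in dfund e, (dX f x ^ 2 + dY f x ^ 2 + dZ f x ^ 2) =
      ∑ j ∈ Finset.range e, ∑ i : Fin 3 → Fin N, ∫ x in cell N i,
        (dX f (lt j 0 0 x) ^ 2 + dY f (lt j 0 0 x) ^ 2 + dZ f (lt j 0 0 x) ^ 2) := by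
    have hc : Continuous (fun x => dX f x ^ 2 + dY f x ^ 2 + dZ f x ^ 2) :=
      ((hcX.pow 2).add (hcY.pow 2)).add (hcZ.pow 2)
    rw [integral_slabs he (φ := fun x => dX f x ^ 2 + dY f x ^ 2 + dZ f x ^ 2) hc
      (fun x => by rw [c4_inv_lt hX, c4_inv_lt hY, c4_inv_lt hZ])]
    refine Finset.sum_congr rfl fun j _ => ?_
    exact integral_cells hN (φ := fun x => dX f (lt j 0 0 x) ^ 2 + dY f (lt j 0 0 x) ^ 2 +
      dZ f (lt j 0 0 x) ^ 2) (hc.comp (contDiff_lt _ _ _).continuous)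
  rw [e1, e2, Finset.mul_sum, Finset.mul_sum]
  refine Finset.sum_le_sum fun j hj => ?_
  rw [Finset.mul_sum, Finset.mul_sum]
  refine Finset.sum_le_sum fun i _ => ?_
  have hfl : ContDiff ℝ ∞ (fun y => f (lt j 0 0 y)) := hf1.comp (contDiff_lt _ _ _)
  have h := cell_poincare hN i hfl (hT j (Finset.mem_range.1 hj) i)
  simp only [dX_lt hf1, dY_lt hf1, dZ_lt hf1] at h
  exact h

end Pool.Agent.H793.Nil
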