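import Pool.Graph.R_seed8.H85R3.RMPlateau

/-! An eigenspace of dimension `m` gives `m` equal min-max values. -/

set_option autoImplicit false

namespace Pool.Agent.H793.Nil

open Pool.Agent.H85R3.RM

variable {H : Type*} [AddCommGroup H] [Module ℝ H]

/-- There is a `(k + 1)`-dimensional space on which the quotient `E / N` is at most `t`. -/
def Fits (E N : H →ₗ[ℝ] H →ₗ[ℝ] ℝ) (k : ℕ) (t : ℝ) : Prop :=
  ∃ W : Submodule ℝ H, Module.finrank ℝ W = k + 1 ∧ ∀ f ∈ W, E f f ≤ t * N f f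

theorem Fits.mono_left {E N : H →ₗ[ℝ] H →ₗ[ℝ] ℝ} {j k : ℕ} {t : ℝ} (h : Fits E N k t)
    (hjk : j ≤ k) : Fits E N j t := by
  obtain ⟨W, hW1, hW2⟩ := h
  have : FiniteDimensional ℝ W := FiniteDimensional.of_finrank_pos (by omega)
  obtain ⟨W', h1, h2⟩ := exists_sub_finrank W (m := j + 1) (by omega)
  exact ⟨W', h2, fun f hf => hW2 f (h1 hf)⟩

/-- If `V` is an `m`-dimensional eigenspace for the eigenvalue `Λ` and `E / N` is not at most `t`
on any `(K + 1)`-dimensional space for `t < Λ`, then the min-max value `Λ` is taken for `m`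
consecutive indices `k, …, k + m - 1` with `k ≤ K`. -/
theorem plateau_of_eigenspace {E N : H →ₗ[ℝ] H →ₗ[ℝ] ℝ} (hEs : ∀ f g, E f g = E g f)
    (hNs : ∀ f g, N f g = N g f) (hNpos : ∀ f, f ≠ 0 → 0 < N f f) {Λ : ℝ} (hΛ : 0 ≤ Λ)
    {V : Submodule ℝ H} {m : ℕ} (hm : 0 < m) (hV : Module.finrank ℝ V = m)
    (heig : ∀ w, ∀ v ∈ V, E w v = Λ * N w v) {K : ℕ} (hK : ∀ t < Λ, ¬ Fits E N K t) :
    ∃ k ≤ K, (∀ t < Λ, Fits E N 0 t → 1 ≤ k) ∧
      ∀ j, k ≤ j → j < k + m → minmax E N j = Λ := by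
  classical
  -- the first index for which no `t < Λ` works
  have hex : ∃ k, ∀ t < Λ, ¬ Fits E N k t := ⟨K, hK⟩
  set k := Nat.find hex with hk
  have hkK : k ≤ K := Nat.find_min' hex hK
  have hk1 : ∀ t < Λ, ¬ Fits E N k t := Nat.find_spec hex
  have hk2 : ∀ j, k ≤ j → ∀ t < Λ, ¬ Fits E N j t := fun j hj t ht h => hk1 t ht (h.mono_left hj)
  refine ⟨k, hkK, fun t ht h => ?_, ?_⟩
  · by_contra hcon
    have : k = 0 := by omega
    rw [this] at hk1
    exact hk1 t ht h
  -- a `k`-dimensional space with quotient `≤ t < Λ`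
  obtain ⟨W, hWfd, hW, t, htΛ, hWt⟩ : ∃ W : Submodule ℝ H, FiniteDimensional ℝ W ∧
      Module.finrank ℝ W = k ∧ ∃ t < Λ, ∀ f ∈ W, E f f ≤ t * N f f := by
    rcases Nat.eq_zero_or_pos k with h0 | hpos
    · refine ⟨⊥, inferInstance, by rw [finrank_bot, h0], Λ - 1, by linarith, fun f hf => ?_⟩
      rw [(Submodule.mem_bot ℝ).mp hf]
      simp
    · have hlt : k - 1 < Nat.find hex := by omega
      have h3 := Nat.find_min hex hlt
      push Not at h3
      obtain ⟨t, ht, W, hW1, hW2⟩ := h3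
      have : FiniteDimensional ℝ W := FiniteDimensional.of_finrank_pos (by omega)
      exact ⟨W, this, by omega, t, ht, hW2⟩
  have hVfd : FiniteDimensional ℝ V := FiniteDimensional.of_finrank_pos (by omega)
  have hdisj : W ⊓ V = ⊥ := by
    rw [Submodule.eq_bot_iff]
    rintro f ⟨hf1, hf2⟩
    by_contra hne
    have h1 := hWt f hf1
    have h2 := heig f f hf2
    have h3 := hNpos f hne
    nlinarith
  have hdim : Module.finrank ℝ ↥(W ⊔ V) = k + m := by
    have := Submodule.finrank_sup_add_finrank_inf_eq W V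
    rw [hdisj, finrank_bot, hW, hV] at this
    omega
  have hsum : ∀ f ∈ W ⊔ V, E f f ≤ Λ * N f f := by
    intro f hf
    obtain ⟨w, hw, v, hv, rfl⟩ := Submodule.mem_sup.mp hf
    have h1 := hWt w hw
    have h2 := heig w v hv
    have h3 := heig v v hv
    have h4 : 0 ≤ N w w := by
      rcases eq_or_ne w 0 with rfl | hne
      · simp
      · exact (hNpos w hne).le
    have h5 : E w w ≤ Λ * N w w := h1.trans (by nlinarith)
    simp only [map_add, LinearMap.add_apply]
    rw [hEs v w, hNs v w, h2, h3]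
    linarith
  intro j hj1 hj2
  have hfit : Fits E N j Λ := by
    have h1 : Fits E N (k + m - 1) Λ := ⟨W ⊔ V, by omega, hsum⟩
    exact h1.mono_left (by omega)
  apply le_antisymm
  · exact csInf_le ⟨0, fun x hx => hx.1⟩ ⟨hΛ, hfit⟩
  · refine le_csInf ⟨Λ, hΛ, hfit⟩ fun x hx => ?_
    by_contra hcon
    exact hk2 j hj1 x (not_le.mp hcon) hx.2

end Pool.Agent.H793.Nil
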