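import Pool.Agent.H793.Nil.S5Green
import Pool.Agent.H793.Nil.S7Plateau

/-! The energy form and the `L²` form of the nilmanifold; its volume and its eigenvalues. -/

set_option autoImplicit false

open scoped ContDiff Topology
open MeasureTheory Matrix

namespace Pool.Agent.H793.Nil

open Pool.Agent.H85R3.RM

theorem dfund_subset (e : ℕ) : dfund e ⊆ Set.Icc 0 (![(e : ℝ), 1, 1]) := by
  rintro x ⟨⟨h1, h2⟩, ⟨h3, h4⟩, h5, h6⟩
  refine ⟨fun i => ?_, fun i => ?_⟩
  · fin_cases i
    · exact h1
    · exact h3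
    · exact h5
  · fin_cases i
    · exact h2.le
    · exact h4.le
    · exact h6.le

theorem integrable_cont {e : ℕ} {φ : (Fin 3 → ℝ) → ℝ} (hφ : Continuous φ) :
    IntegrableOn φ (dfund e) :=
  (hφ.continuousOn.integrableOn_compact isCompact_Icc).mono_set (dfund_subset e)

theorem dX_add {f g : (Fin 3 → ℝ) → ℝ} (hf : ContDiff ℝ ∞ f) (hg : ContDiff ℝ ∞ g) (x : Fin 3 → ℝ) :
    dX (f + g) x = dX f x + dX g x := by
  unfold dX pd
  rw [fderiv_add (hf.differentiable (by simp) x) (hg.differentiable (by simp) x)]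
  rfl

theorem dZ_add {f g : (Fin 3 → ℝ) → ℝ} (hf : ContDiff ℝ ∞ f) (hg : ContDiff ℝ ∞ g) (x : Fin 3 → ℝ) :
    dZ (f + g) x = dZ f x + dZ g x := by
  unfold dZ pd
  rw [fderiv_add (hf.differentiable (by simp) x) (hg.differentiable (by simp) x)]
  rfl

theorem dY_add {f g : (Fin 3 → ℝ) → ℝ} (hf : ContDiff ℝ ∞ f) (hg : ContDiff ℝ ∞ g) (x : Fin 3 → ℝ) :
    dY (f + g) x = dY f x + dY g x := by
  unfold dY pd
  rw [fderiv_add (hf.differentiable (by simp) x) (hg.differentiable (by simp) x)]
  simp only [_root_.add_apply]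
  ring

theorem dX_smul {f : (Fin 3 → ℝ) → ℝ} (hf : ContDiff ℝ ∞ f) (c : ℝ) (x : Fin 3 → ℝ) :
    dX (c • f) x = c * dX f x := by
  unfold dX pd
  rw [fderiv_const_smul (hf.differentiable (by simp) x)]
  rfl

theorem dZ_smul {f : (Fin 3 → ℝ) → ℝ} (hf : ContDiff ℝ ∞ f) (c : ℝ) (x : Fin 3 → ℝ) :
    dZ (c • f) x = c * dZ f x := by
  unfold dZ pd
  rw [fderiv_const_smul (hf.differentiable (by simp) x)]
  rfl

theorem dY_smul {f : (Fin 3 → ℝ) → ℝ} (hf : ContDiff ℝ ∞ f) (c : ℝ) (x : Fin 3 → ℝ) :
    dY (c • f) x = c * dY f x := by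
  unfold dY pd
  rw [fderiv_const_smul (hf.differentiable (by simp) x)]
  simp only [_root_.smul_apply, smul_eq_mul]
  ring

/-- The inner product of the gradients. -/
noncomputable def gr (f g : (Fin 3 → ℝ) → ℝ) (x : Fin 3 → ℝ) : ℝ :=
  dX f x * dX g x + dY f x * dY g x + dZ f x * dZ g x

theorem gr_comm (f g : (Fin 3 → ℝ) → ℝ) (x : Fin 3 → ℝ) : gr f g x = gr g f x := by
  unfold gr
  ring

theorem gr_add {f f' g : (Fin 3 → ℝ) → ℝ} (hf : ContDiff ℝ ∞ f) (hf' : ContDiff ℝ ∞ f')
    (x : Fin 3 → ℝ) : gr (f + f') g x = gr f g x + gr f' g x := by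
  unfold gr
  rw [dX_add hf hf', dY_add hf hf', dZ_add hf hf']
  ring

theorem gr_smul {f g : (Fin 3 → ℝ) → ℝ} (hf : ContDiff ℝ ∞ f) (c : ℝ)
    (x : Fin 3 → ℝ) : gr (c • f) g x = c * gr f g x := by
  unfold gr
  rw [dX_smul hf, dY_smul hf, dZ_smul hf]
  ring

variable {e : ℕ}

theorem continuous_gr {f g : (Fin 3 → ℝ) → ℝ} (hf : f ∈ Inv e) (hg : g ∈ Inv e) :
    Continuous (gr f g) := by
  unfold gr
  exact (((dX_mem hf).1.continuous.mul (dX_mem hg).1.continuous).add
    ((dY_mem hf).1.continuous.mul (dY_mem hg).1.continuous)).add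
    ((dZ_mem hf).1.continuous.mul (dZ_mem hg).1.continuous)

theorem integrable_mul' {f g : (Fin 3 → ℝ) → ℝ} (hf : f ∈ Inv e) (hg : g ∈ Inv e) :
    IntegrableOn (fun x => f x * g x) (dfund e) :=
  integrable_cont (hf.1.continuous.mul hg.1.continuous)

/-- The energy form. -/
noncomputable def Ef (e : ℕ) : Inv e →ₗ[ℝ] Inv e →ₗ[ℝ] ℝ :=
  LinearMap.mk₂ ℝ (fun F G => ∫ x in dfund e, gr F.1 G.1 x)
    (by
      intro F F' G
      rw [← integral_add (integrable_cont (continuous_gr F.2 G.2))
        (integrable_cont (continuous_gr F'.2 G.2))]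
      exact integral_congr_ae (Filter.Eventually.of_forall fun p => gr_add F.2.1 F'.2.1 p))
    (by
      intro c F G
      rw [smul_eq_mul, ← integral_const_mul]
      exact integral_congr_ae (Filter.Eventually.of_forall fun p => gr_smul F.2.1 c p))
    (by
      intro F G G'
      rw [← integral_add (integrable_cont (continuous_gr F.2 G.2))
        (integrable_cont (continuous_gr F.2 G'.2))]
      refine integral_congr_ae (Filter.Eventually.of_forall fun p => ?_)
      simp only [gr_comm F.1]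
      exact gr_add G.2.1 G'.2.1 p)
    (by
      intro c F G
      rw [smul_eq_mul, ← integral_const_mul]
      refine integral_congr_ae (Filter.Eventually.of_forall fun p => ?_)
      simp only [gr_comm F.1]
      exact gr_smul G.2.1 c p)

/-- The `L²` form. -/
noncomputable def Nf (e : ℕ) : Inv e →ₗ[ℝ] Inv e →ₗ[ℝ] ℝ :=
  LinearMap.mk₂ ℝ (fun F G => ∫ x in dfund e, F.1 x * G.1 x)
    (by
      intro F F' G
      rw [← integral_add (integrable_mul' F.2 G.2) (integrable_mul' F'.2 G.2)]
      exact integral_congr_ae (Filter.Eventually.of_forall fun p => add_mul _ _ _))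
    (by
      intro c F G
      rw [smul_eq_mul, ← integral_const_mul]
      exact integral_congr_ae (Filter.Eventually.of_forall fun p => mul_assoc _ _ _))
    (by
      intro F G G'
      rw [← integral_add (integrable_mul' F.2 G.2) (integrable_mul' F.2 G'.2)]
      exact integral_congr_ae (Filter.Eventually.of_forall fun p => mul_add _ _ _))
    (by
      intro c F G
      rw [smul_eq_mul, ← integral_const_mul]
      exact integral_congr_ae (Filter.Eventually.of_forall fun p => mul_left_comm _ _ _))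

theorem Ef_apply (F G : Inv e) : Ef e F G = ∫ x in dfund e, gr F.1 G.1 x := rfl

theorem Nf_apply (F G : Inv e) : Nf e F G = ∫ x in dfund e, F.1 x * G.1 x := rfl

theorem Ef_symm (F G : Inv e) : Ef e F G = Ef e G F := by
  rw [Ef_apply, Ef_apply]
  exact integral_congr_ae (Filter.Eventually.of_forall fun p => gr_comm _ _ p)

theorem Nf_symm (F G : Inv e) : Nf e F G = Nf e G F := by
  rw [Nf_apply, Nf_apply]
  exact integral_congr_ae (Filter.Eventually.of_forall fun p => mul_comm _ _)

theorem Nf_pos (he : 0 < e) (F : Inv e) (hF : F ≠ 0) : 0 < Nf e F F := by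
  have hne : ∃ p, F.1 p ≠ 0 := by
    by_contra hcon
    push Not at hcon
    exact hF (Subtype.ext (funext hcon))
  obtain ⟨p, hp⟩ := hne
  obtain ⟨g, hg, -⟩ := dfund_unique he p
  set q := dact g p with hq
  have hFq : F.1 q ≠ 0 := by rw [hq, F.2.2 g p]; exact hp
  -- a neighbourhood of `q` on which `F` does not vanish
  have hopen : IsOpen {x | F.1 x ≠ 0} := isOpen_ne_fun F.2.1.continuous continuous_const
  obtain ⟨r, hr, hball⟩ := Metric.isOpen_iff.mp hopen q hFq
  obtain ⟨⟨h1, h2⟩, ⟨h3, h4⟩, h5, h6⟩ := hg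
  set δ : ℝ := min r (min (e - q 0) (min (1 - q 1) (1 - q 2))) with hδ
  have hδ0 : 0 < δ := by
    refine lt_min hr (lt_min (by linarith) (lt_min (by linarith) (by linarith)))
  have hδr : δ ≤ r := min_le_left _ _
  have hδ1 : δ ≤ e - q 0 := (min_le_right _ _).trans (min_le_left _ _)
  have hδ2 : δ ≤ 1 - q 1 := ((min_le_right _ _).trans (min_le_right _ _)).trans (min_le_left _ _)
  have hδ3 : δ ≤ 1 - q 2 := ((min_le_right _ _).trans (min_le_right _ _)).trans (min_le_right _ _)
  set B : Set (Fin 3 → ℝ) := Set.pi Set.univ fun i => Set.Ioo (q i) (q i + δ) with hB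
  have hBpos : 0 < volume B := by
    rw [hB, Real.volume_pi_Ioo, pos_iff_ne_zero, Finset.prod_ne_zero_iff]
    intro i _
    simp [hδ0]
  have hBsub : B ⊆ Function.support (fun x => F.1 x * F.1 x) ∩ dfund e := by
    intro x hx
    have hx0 := hx 0 (Set.mem_univ _)
    have hx1 := hx 1 (Set.mem_univ _)
    have hx2 := hx 2 (Set.mem_univ _)
    simp only [Set.mem_Ioo] at hx0 hx1 hx2
    refine ⟨?_, ⟨by linarith, by linarith⟩, ⟨by linarith, by linarith⟩, by linarith, by linarith⟩
    have : x ∈ Metric.ball q r := by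
      rw [Metric.mem_ball, dist_pi_lt_iff hr]
      intro i
      have hxi := hx i (Set.mem_univ _)
      simp only [Set.mem_Ioo] at hxi
      rw [Real.dist_eq, abs_lt]
      constructor <;> linarith
    exact mul_self_ne_zero.mpr (hball this)
  rw [Nf_apply, setIntegral_pos_iff_support_of_nonneg_ae
    (Filter.Eventually.of_forall fun x => mul_self_nonneg _)
    (integrable_cont (F.2.1.continuous.mul F.2.1.continuous))]
  exact hBpos.trans_le (measure_mono hBsub)

theorem isFunction_iff (he : 0 < e) (f : (Fin 3 → ℝ) → ℝ) :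
    IsFunction (heis e he) f ↔ f ∈ Inv e := by
  constructor
  · intro h
    exact ⟨contDiffOn_univ.mp h.smooth, fun g x => h.invariant g x (Set.mem_univ _)⟩
  · intro h
    exact ⟨contDiffOn_univ.mpr h.1, fun x hx => absurd (Set.mem_univ _) hx, fun g x _ => h.2 g x⟩

theorem gradSq_heis (he : 0 < e) (f : (Fin 3 → ℝ) → ℝ) (x : Fin 3 → ℝ) :
    gradSq (heis e he) f x = gr f f x := by
  show ∑ i, ∑ j, (met x)⁻¹ i j * pd i f x * pd j f x = gr f f x
  rw [met_inv]
  unfold gr dX dY dZ
  simp [Fin.sum_univ_three]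
  ring

theorem rayleigh_heis (he : 0 < e) (F : Inv e) (t : ℝ) :
    RayleighLE (heis e he) F.1 t ↔ Ef e F F ≤ t * Nf e F F := by
  have h1 : ∫ x in (heis e he).fund, gradSq (heis e he) F.1 x * √((heis e he).metric x).det =
      Ef e F F := by
    rw [Ef_apply]
    refine integral_congr_ae (Filter.Eventually.of_forall fun x => ?_)
    show gradSq (heis e he) F.1 x * √(met x).det = gr F.1 F.1 x
    rw [gradSq_heis, det_met, Real.sqrt_one, mul_one]
  have h2 : ∫ x in (heis e he).fund, F.1 x ^ 2 * √((heis e he).metric x).det = Nf e F F := by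
    rw [Nf_apply]
    refine integral_congr_ae (Filter.Eventually.of_forall fun x => ?_)
    show F.1 x ^ 2 * √(met x).det = F.1 x * F.1 x
    rw [det_met, Real.sqrt_one, mul_one, sq]
  unfold RayleighLE
  rw [h1, h2]

theorem eigenvalue_heis (he : 0 < e) (k : ℕ) :
    eigenvalue (heis e he) k = minmax (Ef e) (Nf e) k := by
  unfold eigenvalue minmax
  congr 1
  ext t
  constructor
  · rintro ⟨ht, W, hW1, hW2⟩
    have hrange : W ≤ LinearMap.range (Inv e).subtype := by
      intro f hf
      rw [Submodule.range_subtype]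
      exact (isFunction_iff he f).mp (hW2 f hf).1
    refine ⟨ht, W.comap (Inv e).subtype, ?_, fun F hF => ?_⟩
    · have h1 : (W.comap (Inv e).subtype).map (Inv e).subtype = W :=
        Submodule.map_comap_eq_of_le hrange
      have h2 := (Submodule.equivMapOfInjective (Inv e).subtype (Inv e).injective_subtype
        (W.comap (Inv e).subtype)).finrank_eq
      rw [h1] at h2
      rw [h2, hW1]
    · exact (rayleigh_heis he F t).mp (hW2 _ hF).2
  · rintro ⟨ht, W, hW1, hW2⟩
    refine ⟨ht, W.map (Inv e).subtype, ?_, ?_⟩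
    · rw [← (Submodule.equivMapOfInjective (Inv e).subtype (Inv e).injective_subtype W).finrank_eq,
        hW1]
    · rintro _ ⟨F, hF, rfl⟩
      exact ⟨(isFunction_iff he F.1).mpr F.2, (rayleigh_heis he F t).mpr (hW2 F hF)⟩

theorem vol_heis (he : 0 < e) : vol (heis e he) = e := by
  unfold vol
  have h1 : ∫ x in (heis e he).fund, √((heis e he).metric x).det = ∫ x in dfund e, (1 : ℝ) := by
    refine integral_congr_ae (Filter.Eventually.of_forall fun x => ?_)
    show √(met x).det = 1
    rw [det_met, Real.sqrt_one]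
  rw [h1, setIntegral_const, smul_eq_mul, mul_one]
  have h2 : dfund e = Set.pi Set.univ fun i => Set.Ico 0 (![(e : ℝ), 1, 1] i) := by
    ext x
    constructor
    · rintro ⟨⟨h1, h2⟩, ⟨h3, h4⟩, h5, h6⟩ i -
      fin_cases i
      · exact ⟨h1, h2⟩
      · exact ⟨h3, h4⟩
      · exact ⟨h5, h6⟩
    · intro h
      exact ⟨h 0 (Set.mem_univ _), h 1 (Set.mem_univ _), h 2 (Set.mem_univ _)⟩
  rw [Measure.real, h2, Real.volume_pi_Ico, Fin.prod_univ_three]
  simp

end Pool.Agent.H793.Nil
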