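import Pool.Agent.H793.Nil.S8Forms
import Pool.Agent.H793.Nil.S3Frame
import Pool.Agent.H793.Nil.S4Theta
import Pool.Agent.H793.Nil.S6Count

/-! The eigenvalue of large multiplicity and of small index on the nilmanifold. -/

set_option autoImplicit false

open scoped ContDiff Topology
open MeasureTheory Matrix

namespace Pool.Agent.H793.Nil

open Pool.Agent.H85R3.RM

/-- The energy vanishes on the constants. -/
theorem fits_zero {e : ℕ} : Fits (Ef e) (Nf e) 0 0 := by
  set F : Inv e := ⟨fun _ => 1, contDiff_const, fun _ _ => rfl⟩ with hF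
  have hne : F ≠ 0 := by
    intro h
    have h1 : F.1 0 = (0 : Inv e).1 0 := by rw [h]
    exact one_ne_zero h1
  refine ⟨Submodule.span ℝ {F}, by rw [finrank_span_singleton hne], fun f hf => ?_⟩
  obtain ⟨c, rfl⟩ := Submodule.mem_span_singleton.mp hf
  have h0 : ∀ x, gr F.1 F.1 x = 0 := by
    intro x
    have h1 : ∀ i, pd i F.1 x = 0 := by
      intro i
      unfold pd
      rw [hF]
      simp
    unfold gr dX dY dZ
    simp [h1]
  have h1 : Ef e F F = 0 := by
    rw [Ef_apply]
    simp [h0]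
  simp [h1]

theorem not_fits {e : ℕ} (he : 0 < e) {N : ℕ} (hN : 0 < N) {t : ℝ} (ht : 12 * t < (N : ℝ) ^ 2) :
    ¬ Fits (Ef e) (Nf e) (e * N ^ 3) t := by
  rintro ⟨W, hW1, hW2⟩
  have hfr : Module.finrank ℝ (W.map (Inv e).subtype) = e * N ^ 3 + 1 := by
    rw [← (Submodule.equivMapOfInjective (Inv e).subtype (Inv e).injective_subtype W).finrank_eq,
      hW1]
  obtain ⟨f, hf, hf0, hle⟩ := count he hN (W.map (Inv e).subtype)
    (by rintro _ ⟨F, _, rfl⟩; exact F.2) (by omega)
  obtain ⟨F, hF, rfl⟩ := hf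
  have hF0 : F ≠ 0 := by
    rintro rfl
    exact hf0 rfl
  have h1 : Nf e F F = ∫ x in dfund e, F.1 x ^ 2 := by
    rw [Nf_apply]
    refine integral_congr_ae (Filter.Eventually.of_forall fun x => ?_)
    exact (sq _).symm
  have h2 : Ef e F F = ∫ x in dfund e, (dX F.1 x ^ 2 + dY F.1 x ^ 2 + dZ F.1 x ^ 2) := by
    rw [Ef_apply]
    refine integral_congr_ae (Filter.Eventually.of_forall fun x => ?_)
    show gr F.1 F.1 x = _
    unfold gr
    simp only [sq]
  have h3 : (N : ℝ) ^ 2 * Nf e F F ≤ 12 * Ef e F F := by rw [h1, h2]; exact hle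
  have h4 := hW2 F hF
  have h5 := Nf_pos he F hF0
  nlinarith

/-- On the nilmanifold of volume `e` an eigenvalue of index at most `K e` has multiplicity at least
`c e`, where `K` depends only on `c`. -/
theorem mult_heis (c : ℕ) (hc : 0 < c) : ∃ K : ℕ, 0 < K ∧ ∀ (e : ℕ) (he : 0 < e), ∃ k : ℕ, 1 ≤ k ∧
    k ≤ K * e ∧ ((c * e : ℕ) : ℕ∞) ≤ eigenMultiplicity (heis e he) k := by
  set Λ : ℝ := 2 * Real.pi * c + (2 * Real.pi * c) ^ 2 with hΛ
  have hcR : (0 : ℝ) < c := Nat.cast_pos.mpr hc
  have hΛ0 : 0 < Λ := by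
    have := Real.pi_pos
    positivity
  obtain ⟨N, hN⟩ := exists_nat_gt (12 * Λ + 1)
  have hN1 : (1 : ℝ) < N := by linarith
  have hN0 : 0 < N := by
    have : (0 : ℝ) < N := by linarith
    exact_mod_cast this
  have hN2 : 12 * Λ < (N : ℝ) ^ 2 := by nlinarith
  refine ⟨N ^ 3, by positivity, fun e he => ?_⟩
  obtain ⟨V, hV1, hV2, hV3⟩ := exists_eigenspace e c he hc
  -- the eigenspace inside the invariant functions
  have hmap : (V.comap (Inv e).subtype).map (Inv e).subtype = V := by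
    refine Submodule.map_comap_eq_of_le ?_
    rw [Submodule.range_subtype]
    exact hV2
  have hVfr : Module.finrank ℝ (V.comap (Inv e).subtype) = c * e := by
    have h2 := (Submodule.equivMapOfInjective (Inv e).subtype (Inv e).injective_subtype
      (V.comap (Inv e).subtype)).finrank_eq
    rw [hmap] at h2
    rw [h2, hV1]
  have heig : ∀ w : Inv e, ∀ v ∈ V.comap (Inv e).subtype, Ef e w v = Λ * Nf e w v := by
    intro w v hv
    have h := green he w.2 v.2 (Λ := Λ) (fun x => hV3 v.1 hv x)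
    rw [Ef_apply, Nf_apply]
    exact h
  obtain ⟨k, hkK, hk1, hk2⟩ := plateau_of_eigenspace (E := Ef e) (N := Nf e) Ef_symm Nf_symm
    (Nf_pos he) hΛ0.le (V := V.comap (Inv e).subtype) (m := c * e) (by positivity) hVfr heig
    (K := e * N ^ 3) (fun t ht => not_fits he hN0 (by linarith))
  refine ⟨k, hk1 0 hΛ0 fits_zero, by rw [mul_comm]; exact hkK, ?_⟩
  unfold eigenMultiplicity
  have hsub : ((Finset.Ico k (k + c * e) : Finset ℕ) : Set ℕ) ⊆
      {j : ℕ | eigenvalue (heis e he) j = eigenvalue (heis e he) k} := by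
    intro j hj
    rw [Finset.mem_coe, Finset.mem_Ico] at hj
    show eigenvalue (heis e he) j = eigenvalue (heis e he) k
    rw [eigenvalue_heis, eigenvalue_heis, hk2 j hj.1 hj.2, hk2 k le_rfl (by
      have : 0 < c * e := by positivity
      omega)]
  calc ((c * e : ℕ) : ℕ∞) = ((Finset.Ico k (k + c * e) : Finset ℕ) : Set ℕ).encard := by
        rw [Set.encard_coe_eq_coe_finsetCard, Nat.card_Ico, Nat.add_sub_cancel_left]
    _ ≤ _ := Set.encard_le_encard hsub

end Pool.Agent.H793.Nil
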