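import Pool.Agent.H793.Nil.ThDef

set_option autoImplicit false

open scoped ContDiff Topology
open MeasureTheory Matrix Complex

namespace Pool.Agent.H793.Nil

open Pool.Agent.H85R3.RM

theorem theta_add_int (z τ : ℂ) (N : ℤ) : jacobiTheta₂ (z + N) τ = jacobiTheta₂ z τ := by
  induction N using Int.induction_on with
  | zero => simp
  | succ n ih =>
    have h := jacobiTheta₂_add_left (z + (n : ℤ)) τ
    rw [ih] at h
    rw [← h]
    congr 1
    push_cast
    ring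
  | pred n ih =>
    have h := jacobiTheta₂_add_left (z + ((-(n : ℤ) - 1 : ℤ) : ℂ)) τ
    rw [← h, ← ih]
    congr 1
    push_cast
    ring

theorem theta_add_mul (z τ : ℂ) (a : ℤ) : jacobiTheta₂ (z + a * τ) τ =
    cexp (-Real.pi * I * (a ^ 2 * τ + 2 * a * z)) * jacobiTheta₂ z τ := by
  induction a using Int.induction_on with
  | zero => simp
  | succ n ih =>
    have h := jacobiTheta₂_add_left' (z + (n : ℤ) * τ) τ
    rw [ih, ← mul_assoc, ← Complex.exp_add] at h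
    have e1 : z + ((n + 1 : ℤ) : ℂ) * τ = z + (n : ℤ) * τ + τ := by push_cast; ring
    rw [e1, h]
    congr 2
    push_cast
    ring
  | pred n ih =>
    have h := jacobiTheta₂_add_left' (z + ((-(n : ℤ) - 1 : ℤ) : ℂ) * τ) τ
    have e1 : z + ((-(n : ℤ) - 1 : ℤ) : ℂ) * τ + τ = z + ((-(n : ℤ) : ℤ) : ℂ) * τ := by
      push_cast; ring
    rw [e1, ih] at h
    have h2 : jacobiTheta₂ (z + ((-(n : ℤ) - 1 : ℤ) : ℂ) * τ) τ =
        cexp (Real.pi * I * (τ + 2 * (z + ((-(n : ℤ) - 1 : ℤ) : ℂ) * τ))) *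
          (cexp (-Real.pi * I * (((-(n : ℤ) : ℤ) : ℂ) ^ 2 * τ + 2 * ((-(n : ℤ) : ℤ) : ℂ) * z)) *
            jacobiTheta₂ z τ) := by
      rw [h, ← mul_assoc, ← Complex.exp_add]
      rw [show Real.pi * I * (τ + 2 * (z + ((-(n : ℤ) - 1 : ℤ) : ℂ) * τ)) +
        -Real.pi * I * (τ + 2 * (z + ((-(n : ℤ) - 1 : ℤ) : ℂ) * τ)) = 0 by ring]
      simp
    rw [h2, ← mul_assoc, ← Complex.exp_add]
    congr 2
    push_cast
    ring

theorem contDiff_Th (e c k : ℕ) (he : 0 < e) (hc : 0 < c) : ContDiff ℝ ∞ (Th e c k) := by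
  have hτ : 0 < (I * ((c : ℂ) * (e : ℂ) ^ 2)).im := by
    have h1 : I * ((c : ℂ) * (e : ℂ) ^ 2) = ((c * e ^ 2 : ℝ) : ℂ) * I := by push_cast; ring
    rw [h1, Complex.im_ofReal_mul, Complex.I_im, mul_one]
    positivity
  have hθ : ContDiff ℝ ∞ (fun z : ℂ => jacobiTheta₂ z (I * ((c : ℂ) * (e : ℂ) ^ 2))) := by
    have h1 : Differentiable ℂ (fun z : ℂ => jacobiTheta₂ z (I * ((c : ℂ) * (e : ℂ) ^ 2))) :=
      fun z => differentiableAt_jacobiTheta₂_fst z hτ
    exact (h1.contDiff (n := ∞)).restrict_scalars ℝ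
  have hx : ∀ i : Fin 3, ContDiff ℝ ∞ (fun x : Fin 3 → ℝ => ((x i : ℝ) : ℂ)) := fun i =>
    Complex.ofRealCLM.contDiff.comp (contDiff_apply ℝ ℝ i)
  have h0 := hx 0
  have h1 := hx 1
  have h2 := hx 2
  unfold Th
  refine ContDiff.mul (ContDiff.mul ?_ ?_) ?_
  · exact (contDiff_const.mul ((contDiff_const.mul h1).add (contDiff_const.mul h2))).cexp
  · exact (contDiff_const.mul ((h0.add contDiff_const).pow 2)).cexp
  · exact hθ.comp (contDiff_const.mul (h1.add (contDiff_const.mul (h0.add contDiff_const))))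

theorem Th_dact (e c k : ℕ) (he : 0 < e) (hc : 0 < c) (g : Dk e) (x : Fin 3 → ℝ) :
    Th e c k (dact g x) = Th e c k x := by
  have hcne : (c : ℂ) ≠ 0 := by exact_mod_cast hc.ne'
  have hz : ((c : ℂ) * e * (((x 1 + g.b : ℝ) : ℂ) + I * (((x 0 + e * g.a : ℝ) : ℂ) + k / c))) =
      ((c : ℂ) * e * ((x 1 : ℂ) + I * ((x 0 : ℂ) + k / c)) + ((c * e * g.b : ℤ) : ℂ)) +
        (g.a : ℂ) * (I * ((c : ℂ) * (e : ℂ) ^ 2)) := by
    push_cast
    ring
  have hN : cexp (2 * Real.pi * I * ((k * g.b + c * g.c - g.a * c * e * g.b : ℤ) : ℂ)) = 1 := by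
    rw [Complex.exp_eq_one_iff]
    exact ⟨k * g.b + c * g.c - g.a * c * e * g.b, by ring⟩
  unfold Th
  simp only [dact, lt, Matrix.cons_val_zero, Matrix.cons_val_one, Matrix.cons_val_two,
    Matrix.cons_val, Matrix.tail_cons, Matrix.head_cons]
  rw [hz, theta_add_mul, theta_add_int]
  rw [← mul_assoc, ← Complex.exp_add, ← Complex.exp_add, ← Complex.exp_add]
  congr 1
  rw [← mul_one (cexp (2 * Real.pi * I * (k * (x 1 : ℂ) + c * (x 2 : ℂ)) +
    -Real.pi * c * ((x 0 : ℂ) + k / c) ^ 2)), ← hN, ← Complex.exp_add]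
  congr 1
  push_cast
  field_simp
  ring_nf
  simp only [Complex.I_sq]
  ring

end Pool.Agent.H793.Nil
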