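import Pool.Agent.H793.Nil.Heis

set_option autoImplicit false

open scoped ContDiff Topology ENNReal
open MeasureTheory Matrix Complex

namespace Pool.Agent.H793.Nil

open Pool.Agent.H85R3.RM

/-- The theta functions of the nilmanifold `Γ_e \ ℝ³` (of central frequency `c`). -/
noncomputable def Th (e c k : ℕ) (x : Fin 3 → ℝ) : ℂ :=
  cexp (2 * Real.pi * I * (k * x 1 + c * x 2)) * cexp (-Real.pi * c * (x 0 + k / c) ^ 2) *
    jacobiTheta₂ (c * e * (x 1 + I * (x 0 + k / c))) (I * (c * e ^ 2))

end Pool.Agent.H793.Nil
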